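import Mathlib

/-!
No homogeneous set of full size for the lexicographic colouring (version where only cofinally many
pairs are separated).
-/

open Set Ordinal Cardinal

universe u

namespace Pool.Agent.Helper92.SC

theorem no_homogeneous {lam : Cardinal.{u}} (hlam : ℵ₀ ≤ lam) {T : Type u} [LinearOrder T]
    [WellFoundedLT T] (hT : #T ≤ lam) (s : Ordinal.{u} → T → Prop) (H : Set Ordinal.{u})
    (hunb : ∀ b, b < (Order.succ lam).ord → ∃ a ∈ H, b < a ∧ a < (Order.succ lam).ord)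
    (hsep : ∀ a, a < (Order.succ lam).ord → ∃ b0, b0 < (Order.succ lam).ord ∧
      ∀ b, b0 < b → b < (Order.succ lam).ord → ∃ k, ¬ (s a k ↔ s b k))
    (hhom : (∀ a ∈ H, ∀ b ∈ H, a < b → b < (Order.succ lam).ord →
        ∃ k, (∀ k' < k, (s a k' ↔ s b k')) ∧ ¬ s a k ∧ s b k) ∨
      (∀ a ∈ H, ∀ b ∈ H, a < b → b < (Order.succ lam).ord →
        ¬ ∃ k, (∀ k' < k, (s a k' ↔ s b k')) ∧ ¬ s a k ∧ s b k)) : False := by
  have hreg : (Order.succ lam).IsRegular := isRegular_succ hlam
  have hpos : (0 : Ordinal.{u}) < (Order.succ lam).ord := hreg.ord_pos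
  have key : ∀ k : T, ∃ b, b < (Order.succ lam).ord ∧ ∀ a ∈ H, ∀ a' ∈ H, b < a → b < a' →
      a < (Order.succ lam).ord → a' < (Order.succ lam).ord → (s a k ↔ s a' k) := by
    intro k
    induction k using WellFoundedLT.induction with
    | ind k ih =>
      have h1 : ∀ k' : T, ∃ b, b < (Order.succ lam).ord ∧ (k' < k → ∀ a ∈ H, ∀ a' ∈ H, b < a →
          b < a' → a < (Order.succ lam).ord → a' < (Order.succ lam).ord → (s a k' ↔ s a' k')) := by
        intro k'
        by_cases hk : k' < k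
        · obtain ⟨b, hb1, hb2⟩ := ih k' hk
          exact ⟨b, hb1, fun _ => hb2⟩
        · exact ⟨0, hpos, fun h => (hk h).elim⟩
      choose B hB1 hB2 using h1
      have hb0 : (⨆ k', B k') < (Order.succ lam).ord := by
        apply Ordinal.iSup_lt_of_lt_cof _ hB1
        rw [hreg.cof_ord]
        exact hT.trans_lt (Order.lt_succ _)
      have hle : ∀ k', B k' ≤ ⨆ k', B k' := fun k' => Ordinal.le_iSup B k'
      have h2 : ∀ k' < k, ∀ a ∈ H, ∀ a' ∈ H, (⨆ k', B k') < a → (⨆ k', B k') < a' →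
          a < (Order.succ lam).ord → a' < (Order.succ lam).ord → (s a k' ↔ s a' k') := by
        intro k' hk' a ha a' ha' h3 h4
        exact hB2 k' hk' a ha a' ha' ((hle k').trans_lt h3) ((hle k').trans_lt h4)
      rcases hhom with hhom | hhom
      · have h3 : ∀ a ∈ H, ∀ a' ∈ H, (⨆ k', B k') < a → a < a' → a' < (Order.succ lam).ord →
            s a k → s a' k := by
          intro a ha a' ha' h4 h5 h6 h7
          by_contra h8
          obtain ⟨m, hm1, hm2, hm3⟩ := hhom a ha a' ha' h5 h6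
          rcases lt_trichotomy m k with h9 | h9 | h9
          · exact hm2 ((h2 m h9 a ha a' ha' h4 (h4.trans h5) (h5.trans h6) h6).2 hm3)
          · subst h9
            exact hm2 h7
          · exact h8 ((hm1 k h9).1 h7)
        by_cases h4 : ∃ a ∈ H, (⨆ k', B k') < a ∧ a < (Order.succ lam).ord ∧ s a k
        · obtain ⟨a, ha, ha1, ha2, ha3⟩ := h4
          refine ⟨a, ha2, ?_⟩
          intro x hx y hy hax hay hx2 hy2
          exact ⟨fun _ => h3 a ha y hy ha1 hay hy2 ha3, fun _ => h3 a ha x hx ha1 hax hx2 ha3⟩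
        · refine ⟨_, hb0, ?_⟩
          intro x hx y hy hax hay hx2 hy2
          exact ⟨fun h => (h4 ⟨x, hx, hax, hx2, h⟩).elim, fun h => (h4 ⟨y, hy, hay, hy2, h⟩).elim⟩
      · have h3 : ∀ a ∈ H, ∀ a' ∈ H, (⨆ k', B k') < a → a < a' → a' < (Order.succ lam).ord →
            s a' k → s a k := by
          intro a ha a' ha' h4 h5 h6 h7
          by_contra h8
          exact hhom a ha a' ha' h5 h6 ⟨k, fun k' hk' => h2 k' hk' a ha a' ha' h4 (h4.trans h5)
            (h5.trans h6) h6, h8, h7⟩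
        by_cases h4 : ∃ a ∈ H, (⨆ k', B k') < a ∧ a < (Order.succ lam).ord ∧ ¬ s a k
        · obtain ⟨a, ha, ha1, ha2, ha3⟩ := h4
          refine ⟨a, ha2, ?_⟩
          intro x hx y hy hax hay hx2 hy2
          exact ⟨fun h => (ha3 (h3 a ha x hx ha1 hax hx2 h)).elim,
            fun h => (ha3 (h3 a ha y hy ha1 hay hy2 h)).elim⟩
        · push Not at h4
          refine ⟨_, hb0, ?_⟩
          intro x hx y hy hax hay hx2 hy2
          exact ⟨fun _ => h4 y hy hay hy2, fun _ => h4 x hx hax hx2⟩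
  choose B hB1 hB2 using key
  have hb0 : (⨆ k', B k') < (Order.succ lam).ord := by
    apply Ordinal.iSup_lt_of_lt_cof _ hB1
    rw [hreg.cof_ord]
    exact hT.trans_lt (Order.lt_succ _)
  have hle : ∀ k', B k' ≤ ⨆ k', B k' := fun k' => Ordinal.le_iSup B k'
  obtain ⟨a, ha, ha1, ha2⟩ := hunb _ hb0
  obtain ⟨b0, hb1, hb2⟩ := hsep a ha2
  obtain ⟨b, hb, hb3, hb4⟩ := hunb (max b0 a) (max_lt hb1 ha2)
  obtain ⟨k, hk⟩ := hb2 b ((le_max_left _ _).trans_lt hb3) hb4
  exact hk (hB2 k a ha b hb ((hle k).trans_lt ha1)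
    ((hle k).trans_lt (ha1.trans ((le_max_right _ _).trans_lt hb3))) ha2 hb4)

end Pool.Agent.Helper92.SC
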