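import Pool.Agent.Helper92.SC.Exact

/-!
Universal catching families, and the coding data of a singular cardinal `lam` of uncountable
cofinality `μ` such that `τ ^ μ ≤ lam` for all `τ < lam` of cofinality `μ`.
-/

open Set Ordinal Cardinal

universe u

namespace Pool.Agent.Helper92.SC

open Pool.Agent.Helper98

variable {lam : Cardinal.{u}}

/-- Normal ideals are closed under short unions. -/
theorem iUnion_mem (I : NIdeal (Idx lam)) {β : Type u} (hβ : #β < lam.ord.cof)
    (A : β → Set (Idx lam)) (hA : ∀ b, A b ∈ I.sets) : (⋃ b, A b) ∈ I.sets := by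
  classical
  have h1 : #β ≤ #(Idx lam) := by
    rw [mk_Idx]
    exact hβ.le
  obtain ⟨e⟩ := h1
  have h2 : BddAbove (range e) := by
    refine .of_not_isCofinal fun hg => (Order.cof_le hg).not_gt ?_
    rw [cof_Idx]
    exact mk_range_le.trans_lt hβ
  obtain ⟨i0, hi0⟩ := h2
  have h3 : ∀ ξ, {i | ∃ b, e b = ξ ∧ i ∈ A b} ∈ I.sets := by
    intro ξ
    by_cases h : ∃ b, e b = ξ
    · obtain ⟨b, rfl⟩ := h
      refine I.mono ?_ (hA b)
      rintro i ⟨b', h4, h5⟩
      rwa [e.injective h4] at h5
    · refine I.mono ?_ I.empty_mem
      rintro i ⟨b, h4, _⟩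
      exact (h ⟨b, h4⟩).elim
  refine I.mono ?_ (I.union (I.bdd i0) (I.diag _ h3))
  intro i hi
  obtain ⟨b, hb⟩ := mem_iUnion.1 hi
  by_cases h4 : i ≤ i0
  · left; exact h4
  · right
    exact ⟨e b, (hi0 ⟨b, rfl⟩).trans_lt (not_le.1 h4), b, rfl, hb⟩

/-- At most `lam` functions catch all functions below `ρ`, modulo all normal ideals. -/
def Catches (lam : Cardinal.{u}) (ρ : Ordinal.{u}) : Prop :=
  ∃ (A : Type u) (c : A → Idx lam → Ordinal.{u}), #A ≤ lam ∧
    ∀ (I : NIdeal (Idx lam)) (T : Set (Idx lam)) (x : Idx lam → Ordinal.{u}), T ∉ I.sets →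
      (∀ i ∈ T, x i < ρ) → ∃ a, {i ∈ T | x i = c a i} ∉ I.sets

theorem catches (hcof : ℵ₀ < lam.ord.cof)
    (hyp : ∀ τ < lam, τ.ord.cof = lam.ord.cof → τ ^ lam.ord.cof ≤ lam) (ρ : Ordinal.{u})
    (hρ : ρ < lam.ord) : Catches lam ρ := by
  classical
  have hlam : ℵ₀ ≤ lam := (aleph0_lt_lam hcof).le
  induction ρ using WellFoundedLT.induction with
  | ind ρ ih =>
    rcases (Cardinal.ord_card_le ρ).lt_or_eq with h1 | h1
    · obtain ⟨A, c, hA, hc⟩ := ih _ h1 (h1.trans hρ)
      obtain ⟨s, hs⟩ := exists_surj' (a := ρ.card.ord) (b := ρ) (by rw [card_ord])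
      refine ⟨A, fun a i => s (c a i), hA, ?_⟩
      intro I T x hT hx
      have h2 : ∀ i, ∃ y, i ∈ T → y < ρ.card.ord ∧ s y = x i := by
        intro i
        by_cases hi : i ∈ T
        · obtain ⟨y, hy⟩ := hs (x i) (hx i hi)
          exact ⟨y, fun _ => hy⟩
        · exact ⟨0, fun h => (hi h).elim⟩
      choose y hy using h2
      obtain ⟨a, ha⟩ := hc I T y hT (fun i hi => (hy i hi).1)
      refine ⟨a, fun h3 => ha (I.mono ?_ h3)⟩
      rintro i ⟨hi, h4⟩
      refine ⟨hi, ?_⟩
      change x i = s (c a i)
      rw [← h4]
      exact (hy i hi).2.symm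
    · by_cases hcofρ : ρ.cof = lam.ord.cof
      · -- all functions
        have h2 : ρ.card ^ lam.ord.cof ≤ lam := by
          apply hyp
          · exact lt_ord.1 hρ
          · rw [h1, hcofρ]
        refine ⟨Idx lam → ρ.ToType, fun a i => (a i).toOrd.1, ?_, ?_⟩
        · rw [← Cardinal.power_def, mk_Idx, Cardinal.mk_toType]
          exact h2
        · intro I T x hT hx
          have hρ0 : 0 < ρ := by
            by_contra hcon
            have h3 : ρ = 0 := le_antisymm (not_lt.1 hcon) zero_le
            apply hT
            refine I.mono ?_ I.empty_mem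
            intro i hi
            have h4 := hx i hi
            rw [h3] at h4
            exact (not_lt_bot h4).elim
          refine ⟨fun i => if h : i ∈ T then ToType.mk ⟨x i, hx i h⟩ else ToType.mk ⟨0, hρ0⟩, ?_⟩
          intro h3
          apply hT
          refine I.mono ?_ h3
          intro i hi
          refine ⟨hi, ?_⟩
          simp only [dif_pos hi, ToType.toOrd, OrderIso.symm_apply_apply]
      · -- bounded functions
        have h2 : ∀ y : ρ.ToType, Catches lam y.toOrd.1 := fun y =>
          ih _ y.toOrd.2 (lt_trans y.toOrd.2 hρ)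
        choose A c hA hc using h2
        refine ⟨Σ y : ρ.ToType, Option (A y), fun p i => match p.2 with
          | none => p.1.toOrd.1
          | some a => c p.1 a i, ?_, ?_⟩
        · rw [mk_sigma]
          refine (Cardinal.sum_le_sum _ (fun _ => lam) ?_).trans ?_
          · intro y
            rw [mk_option]
            exact (add_le_add (hA y) (one_le_aleph0.trans hlam)).trans (add_eq_self hlam).le
          · rw [Cardinal.sum_const, Cardinal.lift_id, Cardinal.lift_id, Cardinal.mk_toType]
            exact (mul_le_mul' (lt_ord.1 hρ).le le_rfl).trans (mul_eq_self hlam).le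
        · intro I T x hT hx
          have key : ∃ y : ρ.ToType, {i ∈ T | x i ≤ y.toOrd.1} ∉ I.sets := by
            rcases lt_or_gt_of_ne hcofρ with h3 | h3
            · obtain ⟨s, hs, hs'⟩ := Order.exists_cof_eq ρ.ToType
              rw [Ordinal.cof_toType] at hs'
              by_contra hcon
              push Not at hcon
              apply hT
              refine I.mono ?_ (iUnion_mem I (β := s) (by rw [hs']; exact h3)
                (fun b => {i ∈ T | x i ≤ b.1.toOrd.1}) (fun b => hcon b.1))
              intro i hi
              obtain ⟨b, hb, hb'⟩ := hs (ToType.mk ⟨x i, hx i hi⟩)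
              rw [mem_iUnion]
              refine ⟨⟨b, hb⟩, hi, ?_⟩
              have h4 : (⟨x i, hx i hi⟩ : Iio ρ) ≤ ToType.mk.symm b :=
                (OrderIso.le_symm_apply _).2 hb'
              exact h4
            · have hρ0 : 0 < ρ := by
                by_contra hcon
                have h3 : ρ = 0 := le_antisymm (not_lt.1 hcon) zero_le
                apply hT
                refine I.mono ?_ I.empty_mem
                intro i hi
                have h4 := hx i hi
                rw [h3] at h4
                exact (not_lt_bot h4).elim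
              have h4 : (⨆ i : Idx lam, if i ∈ T then x i else 0) < ρ := by
                apply Ordinal.iSup_lt_of_lt_cof
                · rw [mk_Idx]
                  exact h3
                · intro i
                  split_ifs with h
                  · exact hx i h
                  · exact hρ0
              refine ⟨ToType.mk ⟨_, h4⟩, ?_⟩
              intro h5
              apply hT
              refine I.mono ?_ h5
              intro i hi
              refine ⟨hi, ?_⟩
              simp only [ToType.toOrd, OrderIso.symm_apply_apply]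
              have h6 := Ordinal.le_iSup (fun i : Idx lam => if i ∈ T then x i else 0) i
              refine le_trans ?_ h6
              simp only [if_pos hi, le_refl]
          obtain ⟨y, hy⟩ := key
          by_cases h3 : {i ∈ T | x i = y.toOrd.1} ∈ I.sets
          · have h4 : {i ∈ T | x i < y.toOrd.1} ∉ I.sets := by
              intro h5
              apply hy
              refine I.mono ?_ (I.union h3 h5)
              rintro i ⟨hi, h6⟩
              rcases h6.lt_or_eq with h7 | h7
              · right; exact ⟨hi, h7⟩
              · left; exact ⟨hi, h7⟩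
            obtain ⟨a, ha⟩ := hc y I _ x h4 (fun i hi => hi.2)
            refine ⟨⟨y, some a⟩, fun h5 => ha (I.mono ?_ h5)⟩
            rintro i ⟨hi, h6⟩
            exact ⟨hi.1, h6⟩
          · exact ⟨⟨y, none⟩, h3⟩

end Pool.Agent.Helper92.SC
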