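import Pool.Agent.Helper98.Ladder

/-!
Ranks modulo a normal ideal, computed from a family of codes which catches functions modulo all
normal ideals. The quantifier over normal ideals is replaced by covers (diagonal unions).
-/

open Set Ordinal Cardinal

universe u

namespace Pool.Agent.Helper92.SC

open Pool.Agent.Helper98

variable {ι : Type u} [LinearOrder ι] {J : NIdeal ι}

/-- `B` is covered, modulo `J`, by a diagonal union of sets with property `F`. -/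
def Cov (J : NIdeal ι) (F : Set ι → Prop) (B : Set ι) : Prop :=
  ∃ s : ι → Set ι, (∀ ξ, F (s ξ)) ∧ {i ∈ B | ¬ ∃ ξ, ξ < i ∧ i ∈ s ξ} ∈ J.sets

theorem Cov.mono {F : Set ι → Prop} {A B : Set ι} (h : A ⊆ B) (H : Cov J F B) : Cov J F A := by
  obtain ⟨s, h1, h2⟩ := H
  exact ⟨s, h1, J.mono (fun i (hi : i ∈ A ∧ ¬ ∃ ξ, ξ < i ∧ i ∈ s ξ) =>
    (⟨h hi.1, hi.2⟩ : i ∈ B ∧ ¬ ∃ ξ, ξ < i ∧ i ∈ s ξ)) h2⟩

theorem Cov.union_mem {F : Set ι → Prop} {A B : Set ι} (hB : B ∈ J.sets) (H : Cov J F A) :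
    Cov J F (A ∪ B) := by
  obtain ⟨s, h1, h2⟩ := H
  refine ⟨s, h1, J.mono ?_ (J.union h2 hB)⟩
  rintro i ⟨h3 | h3, h4⟩
  · left; exact ⟨h3, h4⟩
  · right; exact h3

theorem Cov.of_mem {F : Set ι → Prop} (h0 : F ∅) {A : Set ι} (hA : A ∈ J.sets) : Cov J F A :=
  ⟨fun _ => ∅, fun _ => h0, J.mono (fun _ hi => hi.1) hA⟩

theorem Cov.self {F : Set ι → Prop} {A : Set ι} (hA : F A) : Cov J F A := by
  refine ⟨fun _ => A, fun _ => hA, J.mono ?_ J.nonlim_mem⟩
  rintro i ⟨h1, h2⟩ h3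
  obtain ⟨ξ, hξ⟩ := h3.1
  exact h2 ⟨ξ, hξ, h1⟩

theorem Cov.diag [Infinite ι] {F : Set ι → Prop} {A : ι → Set ι} (H : ∀ ξ, Cov J F (A ξ)) :
    Cov J F {i | ∃ ξ, ξ < i ∧ i ∈ A ξ} := by
  choose s h1 h2 using H
  obtain ⟨e⟩ : Nonempty (ι × ι ≃ ι) := by
    rw [← Cardinal.eq, mk_prod, Cardinal.lift_id]
    exact mul_eq_self (aleph0_le_mk ι)
  refine ⟨fun ζ => s (e.symm ζ).1 (e.symm ζ).2, fun ζ => h1 _ _, ?_⟩
  refine J.mono ?_ (J.union (J.diag _ h2) (J.diag (fun ξ => {i | ∃ η, η < i ∧ i ∈ Iic (e (ξ, η))})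
    (fun ξ => J.diag _ (fun η => J.bdd (e (ξ, η))))))
  rintro i ⟨⟨ξ, h3, h4⟩, h5⟩
  by_cases h6 : ∃ η, η < i ∧ i ∈ s ξ η
  · obtain ⟨η, h7, h8⟩ := h6
    right
    refine ⟨ξ, h3, η, h7, ?_⟩
    rw [mem_Iic]
    by_contra h9
    apply h5
    refine ⟨e (ξ, η), not_le.1 h9, ?_⟩
    change i ∈ s (e.symm (e (ξ, η))).1 (e.symm (e (ξ, η))).2
    rw [Equiv.symm_apply_apply]
    exact h8
  · left
    exact ⟨ξ, h3, h4, h6⟩

/-- The normal ideal generated by `J` and a family of sets. -/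
def covIdeal [Infinite ι] (J : NIdeal ι) (F : Set ι → Prop) (h0 : F ∅) : NIdeal ι where
  sets := {B | Cov J F B}
  empty_mem := Cov.of_mem h0 J.empty_mem
  mono := fun h H => Cov.mono h H
  bdd := fun i => Cov.of_mem h0 (J.bdd i)
  union := by
    classical
    intro A B hA hB
    obtain ⟨a, b, hab⟩ : ∃ a b : ι, a ≠ b := exists_pair_ne ι
    have h1 : Cov J F {i | ∃ ξ, ξ < i ∧ i ∈ (if ξ = a then A else if ξ = b then B else ∅)} := by
      apply Cov.diag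
      intro ξ
      by_cases h2 : ξ = a
      · rw [if_pos h2]; exact hA
      · by_cases h3 : ξ = b
        · rw [if_neg h2, if_pos h3]; exact hB
        · rw [if_neg h2, if_neg h3]; exact Cov.of_mem h0 J.empty_mem
    refine Cov.mono ?_ (Cov.union_mem (J.bdd (max a b)) h1)
    intro i hi
    by_cases h2 : i ≤ max a b
    · right; exact h2
    · left
      have h3 := not_le.1 h2
      rcases hi with h4 | h4
      · refine ⟨a, (le_max_left _ _).trans_lt h3, ?_⟩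
        rw [if_pos rfl]; exact h4
      · refine ⟨b, (le_max_right _ _).trans_lt h3, ?_⟩
        rw [if_neg hab.symm, if_pos rfl]; exact h4
  diag := fun A hA => Cov.diag hA

/-- Data for coding pieces of functions: the codes catch all functions below `θ`, modulo all
normal ideals. -/
structure CatchData (ι : Type u) [LinearOrder ι] where
  θ : ι → Ordinal.{u}
  κ : ι → Ordinal.{u}
  S : ι → Ordinal.{u} → Ordinal.{u} → Ordinal.{u}
  Code : Type u
  dom : Code → Set ι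
  val : Code → ι → Ordinal.{u}
  S_lt : ∀ i η x, 0 < η → S i η x < η
  S_surj : ∀ i η, η < κ i → ∀ ρ, ρ < η → ∃ x, x < θ i ∧ S i η x = ρ
  code_empty : ∃ φ, dom φ = ∅
  code_catch : ∀ (I : NIdeal ι) (T : Set ι) (x : ι → Ordinal.{u}), T ∉ I.sets →
    (∀ i ∈ T, x i < θ i) → ∃ φ, dom φ ⊆ T ∧ dom φ ∉ I.sets ∧ ∀ i ∈ dom φ, val φ i = x i

variable {D : CatchData ι}

/-- the partial function coded by `φ` below `h` -/
def CatchData.ev (D : CatchData ι) (h : ι → Ordinal.{u}) (φ : D.Code) (i : ι) : Ordinal.{u} :=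
  D.S i (h i) (D.val φ i)

/-- `φ'` codes a piece strictly below `φ`. -/
def CatchData.Below (D : CatchData ι) (h : ι → Ordinal.{u}) (φ' φ : D.Code) : Prop :=
  ∀ i, i ∈ D.dom φ' → i ∈ D.dom φ ∧ D.ev h φ' i < D.ev h φ i

theorem CatchData.exists_code {h g : ι → Ordinal.{u}} (hh : ∀ i, h i < D.κ i) (I : NIdeal ι)
    {T : Set ι} (hT : T ∉ I.sets) (hg : ∀ i ∈ T, g i < h i) :
    ∃ φ : D.Code, D.dom φ ⊆ T ∧ D.dom φ ∉ I.sets ∧ ∀ i ∈ D.dom φ, D.ev h φ i = g i := by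
  classical
  have h1 : ∀ i, ∃ x, i ∈ T → x < D.θ i ∧ D.S i (h i) x = g i := by
    intro i
    by_cases hi : i ∈ T
    · obtain ⟨x, hx⟩ := D.S_surj i (h i) (hh i) (g i) (hg i hi)
      exact ⟨x, fun _ => hx⟩
    · exact ⟨0, fun h => (hi h).elim⟩
  choose x hx using h1
  obtain ⟨φ, hφ1, hφ2, hφ3⟩ := D.code_catch I T x hT (fun i hi => (hx i hi).1)
  refine ⟨φ, hφ1, hφ2, ?_⟩
  intro i hi
  rw [CatchData.ev, hφ3 i hi]
  exact (hx i (hφ1 hi)).2

theorem CatchData.ev_lt {h : ι → Ordinal.{u}} (hpos : ∀ i, 0 < h i) (φ : D.Code) (i : ι) :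
    D.ev h φ i < h i := D.S_lt i (h i) _ (hpos i)

variable [Infinite ι] [WellFoundedLT ι]

/-- Functions below `f` of rank at least `δ` on `T` are covered by codes. -/
theorem CatchData.cov_iff {h : ι → Ordinal.{u}} (hh : ∀ i, h i < D.κ i) {T : Set ι}
    {f : ι → Ordinal.{u}} (hf : ∀ i ∈ T, f i ≤ h i) (δ : Ordinal.{u}) :
    (∃ g : ι → Ordinal.{u}, {i ∈ T | ¬ g i < f i} ∈ J.sets ∧ RK J T g δ) ↔
      Cov J (fun A => ∃ φ : D.Code, D.dom φ = A ∧ (∀ i ∈ A, i ∈ T ∧ D.ev h φ i < f i) ∧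
        RK J A (D.ev h φ) δ) T := by
  classical
  constructor
  · rintro ⟨g, hg1, hg2⟩
    by_contra hcon
    obtain ⟨F, hF⟩ : ∃ F : Set ι → Prop, F = fun A => ∃ φ : D.Code, D.dom φ = A ∧
      (∀ i ∈ A, i ∈ T ∧ D.ev h φ i < f i) ∧ RK J A (D.ev h φ) δ := ⟨_, rfl⟩
    rw [← hF] at hcon
    have h0 : F ∅ := by
      rw [hF]
      obtain ⟨φ, hφ⟩ := D.code_empty
      exact ⟨φ, hφ, fun i hi => hi.elim, RK_of_mem J.empty_mem _ _⟩
    have hI : ∀ A, A ∈ (covIdeal J F h0).sets ↔ Cov J F A := fun A => Iff.rfl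
    have hT : {i ∈ T | g i < f i} ∉ (covIdeal J F h0).sets := by
      intro hmem
      apply hcon
      rw [hI] at hmem
      refine Cov.mono ?_ (Cov.union_mem hg1 hmem)
      intro i hi
      by_cases h1 : g i < f i
      · left; exact ⟨hi, h1⟩
      · right; exact ⟨hi, h1⟩
    obtain ⟨φ, hφ1, hφ2, hφ3⟩ := D.exists_code hh (covIdeal J F h0) hT
      (g := g) (fun i hi => hi.2.trans_le (hf i hi.1))
    apply hφ2
    rw [hI]
    apply Cov.self
    rw [hF]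
    refine ⟨φ, rfl, ?_, ?_⟩
    · intro i hi
      refine ⟨(hφ1 hi).1, ?_⟩
      rw [hφ3 i hi]
      exact (hφ1 hi).2
    · refine (hg2.mono_set (fun i hi => (hφ1 hi).1)).congr' ?_
      intro i hi
      exact (hφ3 i hi).symm
  · rintro ⟨s, hs, hs'⟩
    choose φ hφ1 hφ2 hφ3 using hs
    have hne : ∀ i, ∃ ξ, (∃ ξ', ξ' < i ∧ i ∈ s ξ') → ξ < i ∧ i ∈ s ξ := by
      intro i
      by_cases h : ∃ ξ', ξ' < i ∧ i ∈ s ξ'
      · obtain ⟨ξ, hξ⟩ := h
        exact ⟨ξ, fun _ => hξ⟩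
      · exact ⟨i, fun h' => (h h').elim⟩
    choose b hb using hne
    refine ⟨fun i => D.ev h (φ (b i)) i, J.mono ?_ hs', ?_⟩
    · rintro i ⟨h1, h2⟩
      refine ⟨h1, ?_⟩
      intro h3
      exact h2 ((hφ2 (b i) i (hb i h3).2).2)
    · have h1 : RK J {i ∈ T | ∃ ξ, ξ < i ∧ i ∈ s ξ} (fun i => D.ev h (φ (b i)) i) δ := by
        refine RK.glue b ?_ ?_
        · refine J.mono ?_ J.empty_mem
          rintro i ⟨h1, h2⟩
          exact (h2 (hb i h1.2).1).elim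
        · intro ξ
          have h2 : RK J {i ∈ {i ∈ T | ∃ ξ, ξ < i ∧ i ∈ s ξ} | b i = ξ} (D.ev h (φ ξ)) δ := by
            refine (hφ3 ξ).mono_set ?_
            rintro i ⟨h2, rfl⟩
            exact (hb i h2.2).2
          refine h2.congr' ?_
          rintro i ⟨_, rfl⟩
          rfl
      have h2 : RK J {i ∈ T | ¬ ∃ ξ, ξ < i ∧ i ∈ s ξ} (fun i => D.ev h (φ (b i)) i) δ :=
        RK_of_mem hs' _ _
      refine (RK.union h1 h2).mono_set ?_
      intro i hi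
      by_cases h3 : ∃ ξ, ξ < i ∧ i ∈ s ξ
      · left; exact ⟨hi, h3⟩
      · right; exact ⟨hi, h3⟩

/-- Local recursion for ranks of pieces. -/
theorem CatchData.local_rec {h : ι → Ordinal.{u}} (hh : ∀ i, h i < D.κ i) (hpos : ∀ i, 0 < h i)
    (φ : D.Code) (γ : Ordinal.{u}) :
    RK J (D.dom φ) (D.ev h φ) γ ↔ ∀ δ, δ < γ →
      Cov J (fun A => ∃ φ' : D.Code, D.dom φ' = A ∧ D.Below h φ' φ ∧
        RK J (D.dom φ') (D.ev h φ') δ) (D.dom φ) := by
  rw [RK_iff]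
  refine forall_congr' fun δ => imp_congr Iff.rfl ?_
  rw [CatchData.cov_iff hh (fun i _ => (D.ev_lt hpos φ i).le)]
  unfold Cov
  refine exists_congr fun s => and_congr (forall_congr' fun ξ => exists_congr fun φ' => ?_) Iff.rfl
  constructor
  · rintro ⟨h1, h2, h3⟩
    refine ⟨h1, ?_, ?_⟩
    · intro i hi
      rw [h1] at hi
      exact h2 i hi
    · rw [h1]
      exact h3
  · rintro ⟨h1, h2, h3⟩
    refine ⟨h1, ?_, ?_⟩
    · intro i hi
      rw [← h1] at hi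
      exact h2 i hi
    · rw [h1] at h3
      exact h3

/-- Local characterisation of `RK J univ h (α + 1)`. -/
theorem CatchData.local_big {h : ι → Ordinal.{u}} (hh : ∀ i, h i < D.κ i) (hpos : ∀ i, 0 < h i)
    (α : Ordinal.{u}) :
    RK J Set.univ h (α + 1) ↔ Cov J (fun A => ∃ φ : D.Code, D.dom φ = A ∧
        RK J (D.dom φ) (D.ev h φ) α) Set.univ := by
  have h1 : RK J Set.univ h (α + 1) ↔ ∃ g : ι → Ordinal.{u},
      {i ∈ Set.univ | ¬ g i < h i} ∈ J.sets ∧ RK J Set.univ g α := by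
    rw [RK_iff]
    constructor
    · intro H
      exact H α (lt_add_one α)
    · rintro ⟨g, hg1, hg2⟩ δ hδ
      exact ⟨g, hg1, hg2.mono_rank (Order.lt_add_one_iff.1 hδ)⟩
  rw [h1, CatchData.cov_iff hh (fun i _ => le_rfl)]
  unfold Cov
  refine exists_congr fun s => and_congr (forall_congr' fun ξ => exists_congr fun φ' => ?_) Iff.rfl
  constructor
  · rintro ⟨h1, h2, h3⟩
    refine ⟨h1, ?_⟩
    rw [h1]
    exact h3
  · rintro ⟨h1, h3⟩
    refine ⟨h1, fun i _ => ⟨mem_univ _, D.ev_lt hpos φ' i⟩, ?_⟩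
    rw [h1] at h3
    exact h3

/-- Hereditarily exact rank `α` on `T`. -/
def HE (D : CatchData ι) (J : NIdeal ι) (α : Ordinal.{u}) (T : Set ι) (f : ι → Ordinal.{u}) : Prop :=
  T ∉ J.sets ∧ (∀ i, f i < D.κ i) ∧ RK J T f α ∧ ∀ T' ⊆ T, T' ∉ J.sets → ¬ RK J T' f (α + 1)

/-- The invariant: there is a `K`-positive set and a function on it of hereditary rank `α`
satisfying the constraint `Q`. -/
def CatchData.Inv (D : CatchData ι) (J : NIdeal ι) (α : Ordinal.{u}) (K : Set ι)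
    (Q : ι → Ordinal.{u} → Prop) : Prop :=
  ∃ (T : Set ι) (f : ι → Ordinal.{u}), T ⊆ K ∧ HE D J α T f ∧ ∀ i ∈ T, Q i (f i)

omit [Infinite ι] [WellFoundedLT ι] in
theorem HE.mono {α : Ordinal.{u}} {T T' : Set ι} {f : ι → Ordinal.{u}} (h : T' ⊆ T)
    (hT' : T' ∉ J.sets) (H : HE D J α T f) : HE D J α T' f :=
  ⟨hT', H.2.1, H.2.2.1.mono_set h, fun T'' h1 h2 => H.2.2.2 T'' (h1.trans h) h2⟩

omit [Infinite ι] [WellFoundedLT ι] in
/-- The invariant is locally computable. -/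
theorem CatchData.local_inv {h : ι → Ordinal.{u}} (hh : ∀ i, h i < D.κ i) (hpos : ∀ i, 0 < h i)
    {α : Ordinal.{u}} (hR : RK J Set.univ h (α + 1)) (K : Set ι)
    (Q : ι → Ordinal.{u} → Prop) :
    D.Inv J α K Q ↔ ∃ φ : D.Code, D.dom φ ∉ J.sets ∧ D.dom φ ⊆ K ∧
      RK J (D.dom φ) (D.ev h φ) α ∧
      (∀ φ' : D.Code, D.Below h φ' φ → RK J (D.dom φ') (D.ev h φ') α → D.dom φ' ∈ J.sets) ∧
      ∀ i ∈ D.dom φ, Q i (D.ev h φ i) := by
  constructor
  · rintro ⟨T, f, hTK, ⟨hT, hf, hf1, hf2⟩, hQ⟩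
    have h1 : {i ∈ T | ¬ f i < h i} ∈ J.sets := by
      by_contra hcon
      refine hf2 _ (fun i hi => hi.1) hcon ?_
      refine (hR.mono_set (subset_univ _)).of_le (J.mono ?_ J.empty_mem)
      rintro i ⟨⟨_, h2⟩, h3⟩
      exact h3 (not_lt.1 h2)
    have h2 : {i ∈ T | f i < h i} ∉ J.sets := by
      intro hmem
      apply hT
      refine J.mono ?_ (J.union hmem h1)
      intro i hi
      by_cases h1 : f i < h i
      · left; exact ⟨hi, h1⟩
      · right; exact ⟨hi, h1⟩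
    obtain ⟨φ, hφ1, hφ2, hφ3⟩ := D.exists_code hh J h2 (g := f) (fun i hi => hi.2)
    refine ⟨φ, hφ2, fun i hi => hTK (hφ1 hi).1, ?_, ?_, ?_⟩
    · refine (hf1.mono_set (fun i hi => (hφ1 hi).1)).congr' ?_
      intro i hi
      exact (hφ3 i hi).symm
    · intro φ' hφ' hR'
      by_contra hcon
      refine hf2 (D.dom φ') (fun i hi => (hφ1 (hφ' i hi).1).1) hcon ?_
      refine RK.succ ?_ hR'
      refine J.mono ?_ J.empty_mem
      rintro i ⟨h3, h4⟩
      apply h4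
      rw [← hφ3 i (hφ' i h3).1]
      exact (hφ' i h3).2
    · intro i hi
      rw [hφ3 i hi]
      exact hQ i (hφ1 hi).1
  · rintro ⟨φ, hφ1, hφK, hφ2, hφ3, hφ4⟩
    refine ⟨D.dom φ, D.ev h φ, hφK, ⟨hφ1, fun i => (D.ev_lt hpos φ i).trans (hh i), hφ2, ?_⟩, hφ4⟩
    intro T' hT' hT'I hR'
    obtain ⟨g, hg1, hg2⟩ := RK_iff.1 hR' α (lt_add_one α)
    have hT : {i ∈ T' | g i < D.ev h φ i} ∉ J.sets := by
      intro hmem
      apply hT'I
      refine J.mono ?_ (J.union hmem hg1)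
      intro i hi
      by_cases h1 : g i < D.ev h φ i
      · left; exact ⟨hi, h1⟩
      · right; exact ⟨hi, h1⟩
    obtain ⟨φ', h1, h2, h3⟩ := D.exists_code hh J hT
      (g := g) (fun i hi => hi.2.trans (D.ev_lt hpos φ i))
    apply h2
    apply hφ3 φ'
    · intro i hi
      refine ⟨hT' (h1 hi).1, ?_⟩
      rw [h3 i hi]
      exact (h1 hi).2
    · refine (hg2.mono_set (fun i hi => (h1 hi).1)).congr' ?_
      intro i hi
      exact (h3 i hi).symm

omit [Infinite ι] [WellFoundedLT ι] in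
/-- Two hereditarily exact functions of different ranks differ almost everywhere. -/
theorem HE.ne {α β : Ordinal.{u}} {T : Set ι} {f g : ι → Ordinal.{u}} (hf : HE D J α T f)
    (hg : HE D J β T g) (hne : α ≠ β) : {i ∈ T | f i = g i} ∈ J.sets := by
  by_contra hcon
  rcases lt_or_gt_of_ne hne with hlt | hgt
  · refine hf.2.2.2 _ (fun i hi => hi.1) hcon ?_
    have h1 : RK J {i ∈ T | f i = g i} f β :=
      (hg.2.2.1.mono_set (fun i hi => hi.1)).congr' (fun i hi => hi.2.symm)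
    exact h1.mono_rank (Order.add_one_le_of_lt hlt)
  · refine hg.2.2.2 _ (fun i hi => hi.1) hcon ?_
    have h1 : RK J {i ∈ T | f i = g i} g α :=
      (hf.2.2.1.mono_set (fun i hi => hi.1)).congr' (fun i hi => hi.2)
    exact h1.mono_rank (Order.add_one_le_of_lt hgt)

omit [Infinite ι] [WellFoundedLT ι] in
/-- Two hereditarily exact functions of the same rank agree almost everywhere. -/
theorem HE.not_lt {α : Ordinal.{u}} {T : Set ι} {f g : ι → Ordinal.{u}} (hf : HE D J α T f)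
    (hg : HE D J α T g) : {i ∈ T | f i < g i} ∈ J.sets := by
  by_contra hcon
  refine hg.2.2.2 _ (fun i hi => hi.1) hcon ?_
  have h1 : RK J {i ∈ T | f i < g i} f α := hf.2.2.1.mono_set (fun i hi => hi.1)
  refine h1.succ (J.mono ?_ J.empty_mem)
  rintro i ⟨h2, h3⟩
  exact h3 h2.2

omit [Infinite ι] [WellFoundedLT ι] in
theorem split_pos {T : Set ι} (hT : T ∉ J.sets) (P : ι → Prop) :
    ∃ (b : Bool) (T' : Set ι), T' ⊆ T ∧ T' ∉ J.sets ∧ ∀ i ∈ T', (P i ↔ b = true) := by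
  by_cases h : {i ∈ T | P i} ∈ J.sets
  · refine ⟨false, {i ∈ T | ¬ P i}, fun i hi => hi.1, ?_, ?_⟩
    · intro h1
      apply hT
      refine J.mono ?_ (J.union h h1)
      intro i hi
      by_cases h2 : P i
      · left; exact ⟨hi, h2⟩
      · right; exact ⟨hi, h2⟩
    · intro i hi
      simp [hi.2]
  · refine ⟨true, {i ∈ T | P i}, fun i hi => hi.1, h, ?_⟩
    intro i hi
    simp [hi.2]

omit [Infinite ι] [WellFoundedLT ι] in
/-- The invariants separate ordinals. -/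
theorem CatchData.inv_separates {X : ι → Ordinal.{u} → Ordinal.{u} → Prop}
    (hX : ∀ i η η', η < D.κ i → η' < D.κ i → η ≠ η' → ∃ x, x < D.θ i ∧ ¬ (X i η x ↔ X i η' x))
    {α β : Ordinal.{u}} (hα : ∃ (T : Set ι) (f : ι → Ordinal.{u}), HE D J α T f)
    (hne : α ≠ β)
    (hI : ∀ (K : Set ι) (φ : D.Code) (b : Bool),
      D.Inv J α K (fun i η => (X i η (D.val φ i) ↔ b = true)) ↔
      D.Inv J β K (fun i η => (X i η (D.val φ i) ↔ b = true))) : False := by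
  classical
  obtain ⟨T0, f, hf⟩ := hα
  obtain ⟨φ0, _⟩ := D.code_empty
  obtain ⟨b0, T1, h1, h2, h3⟩ := split_pos hf.1 (fun i => X i (f i) (D.val φ0 i))
  obtain ⟨T2, g, h4, hg, _⟩ := (hI T1 φ0 b0).1 ⟨T1, f, Subset.rfl, hf.mono h1 h2, h3⟩
  have hf2 : HE D J α T2 f := hf.mono (h4.trans h1) hg.1
  have h5 : {i ∈ T2 | f i = g i} ∈ J.sets := hf2.ne hg hne
  have h6 : {i ∈ T2 | f i ≠ g i} ∉ J.sets := by
    intro hmem
    apply hg.1
    refine J.mono ?_ (J.union hmem h5)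
    intro i hi
    by_cases h1 : f i = g i
    · right; exact ⟨hi, h1⟩
    · left; exact ⟨hi, h1⟩
  have h7 : ∀ i, ∃ x, i ∈ {i ∈ T2 | f i ≠ g i} →
      x < D.θ i ∧ ¬ (X i (f i) x ↔ X i (g i) x) := by
    intro i
    by_cases hi : i ∈ {i ∈ T2 | f i ≠ g i}
    · obtain ⟨x, hx⟩ := hX i (f i) (g i) (hf.2.1 i) (hg.2.1 i) hi.2
      exact ⟨x, fun _ => hx⟩
    · exact ⟨0, fun h => (hi h).elim⟩
  choose x hx using h7
  obtain ⟨φ, hφ1, hφ2, hφ3⟩ := D.code_catch J _ x h6 (fun i hi => (hx i hi).1)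
  obtain ⟨b, T3, h8, h9, h10⟩ := split_pos hφ2 (fun i => X i (f i) (D.val φ i))
  have h32 : T3 ⊆ T2 := fun i hi => (hφ1 (h8 hi)).1
  obtain ⟨T4, g', h11, hg', h12⟩ := (hI T3 φ b).1
    ⟨T3, f, Subset.rfl, hf2.mono h32 h9, h10⟩
  have hg4 : HE D J β T4 g := hg.mono (h11.trans h32) hg'.1
  have h13 : {i ∈ T4 | g i = g' i} ∉ J.sets := by
    intro hmem
    apply hg'.1
    refine J.mono ?_ (J.union hmem (J.union (hg4.not_lt hg') (hg'.not_lt hg4)))
    intro i hi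
    rcases lt_trichotomy (g i) (g' i) with h1 | h1 | h1
    · right; left; exact ⟨hi, h1⟩
    · left; exact ⟨hi, h1⟩
    · right; right; exact ⟨hi, h1⟩
  have h14 : {i ∈ T4 | g i = g' i} ≠ ∅ := by
    intro h1
    rw [h1] at h13
    exact h13 J.empty_mem
  obtain ⟨i, hi4, hi⟩ := nonempty_iff_ne_empty.2 h14
  have h15 := h12 i hi4
  rw [← hi] at h15
  have h16 := h10 i (h11 hi4)
  have h17 := hφ1 (h8 (h11 hi4))
  have h18 := (hx i h17).2
  rw [← hφ3 i (h8 (h11 hi4))] at h18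
  exact h18 (h16.trans h15.symm)

end Pool.Agent.Helper92.SC
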