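import Pool.Agent.Helper92.SC.Catch

/-!
The coding data of a singular cardinal of uncountable cofinality, and cardinalities.
-/

open Set Ordinal Cardinal

universe u

namespace Pool.Agent.Helper92.SC

open Pool.Agent.Helper98

variable {lam : Cardinal.{u}}

theorem cof_lt (hs : lam.IsSingular) : lam.ord.cof < lam := by
  refine lt_of_le_of_ne (Ordinal.cof_ord_le lam) ?_
  intro h
  exact hs.not_isRegular ⟨hs.aleph0_le, h.ge⟩

theorem mk_Set_le (hs : lam.IsSingular) (hcof : ℵ₀ < lam.ord.cof)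
    (hyp : ∀ τ < lam, τ.ord.cof = lam.ord.cof → τ ^ lam.ord.cof ≤ lam) :
    #(Set (Idx lam)) ≤ lam := by
  rw [mk_set, mk_Idx]
  refine le_trans ?_ (hyp _ (cof_lt hs) (Ordinal.cof_ord_cof _))
  exact Cardinal.power_le_power_right ((natCast_lt_aleph0 (n := 2)).le.trans hcof.le)

theorem mk_seq_le (hs : lam.IsSingular) (hcof : ℵ₀ < lam.ord.cof)
    (hyp : ∀ τ < lam, τ.ord.cof = lam.ord.cof → τ ^ lam.ord.cof ≤ lam) :
    #(Idx lam → Set (Idx lam)) ≤ lam := by
  rw [← Cardinal.power_def, mk_set, ← Cardinal.power_mul, mk_Idx, mul_eq_self hcof.le]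
  have h := mk_Set_le hs hcof hyp
  rwa [mk_set, mk_Idx] at h

theorem exists_catchData (hs : lam.IsSingular) (hcof : ℵ₀ < lam.ord.cof)
    (hyp : ∀ τ < lam, τ.ord.cof = lam.ord.cof → τ ^ lam.ord.cof ≤ lam) :
    ∃ D : CatchData (Idx lam), D.θ = th lam ∧ D.κ = ka lam ∧ #D.Code ≤ lam := by
  classical
  have hinf := Idx_infinite hcof
  have hlam : ℵ₀ ≤ lam := hs.aleph0_le
  have h1 : ∀ ξ : Idx lam, Catches lam (th lam ξ) := fun ξ => catches hcof hyp _ (th_lt hcof ξ)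
  choose A c hA hc using h1
  obtain ⟨ξ0⟩ : Nonempty (Idx lam) := inferInstance
  obtain ⟨a0, _⟩ := hc ξ0 (JNS hcof) Set.univ (fun _ => 0) (JNS_proper hcof) (fun _ _ => th_pos ξ0)
  refine ⟨{
    θ := th lam
    κ := ka lam
    S := sur lam
    Code := Set (Idx lam) × (Σ ξ : Idx lam, A ξ)
    dom := fun φ => φ.1
    val := fun φ i => c φ.2.1 φ.2.2 i
    S_lt := fun i η x h => (exists_surj lam i η).choose_spec.1 x h
    S_surj := fun i η h => (exists_surj lam i η).choose_spec.2 h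
    code_empty := ⟨⟨∅, ξ0, a0⟩, rfl⟩
    code_catch := ?_ }, rfl, rfl, ?_⟩
  · intro I T x hT hx
    obtain ⟨ξ, hξ⟩ := I.exists_pos hT (fun ξ i => x i < th lam ξ)
      (fun i hi hl => th_lim i hl (x i) (hx i hi))
    obtain ⟨a, ha⟩ := hc ξ I _ x hξ (fun i hi => hi.2)
    refine ⟨⟨{i ∈ {i ∈ T | x i < th lam ξ} | x i = c ξ a i}, ξ, a⟩, ?_, ha, ?_⟩
    · intro i hi
      exact hi.1.1
    · intro i hi
      exact hi.2.symm
  · change #(Set (Idx lam) × (Σ ξ : Idx lam, A ξ)) ≤ lam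
    rw [mk_prod, Cardinal.lift_id, Cardinal.lift_id]
    refine (mul_le_mul' (mk_Set_le hs hcof hyp) ?_).trans (mul_eq_self hlam).le
    rw [mk_sigma]
    refine (Cardinal.sum_le_sum _ (fun _ => lam) hA).trans ?_
    rw [Cardinal.sum_const, Cardinal.lift_id, Cardinal.lift_id, mk_Idx]
    exact (mul_le_mul' (Ordinal.cof_ord_le lam) le_rfl).trans (mul_eq_self hlam).le

/-- Distinct values below `ka` are separated by some `x` below `th`. -/
theorem exists_X (lam : Cardinal.{u}) : ∃ X : Idx lam → Ordinal.{u} → Ordinal.{u} → Prop,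
    ∀ i η η', η < ka lam i → η' < ka lam i → η ≠ η' →
      ∃ x, x < th lam i ∧ ¬ (X i η x ↔ X i η' x) := by
  classical
  have h1 : ∀ i : Idx lam, Nonempty ((ka lam i).ToType ↪ Set ((th lam i).ToType)) := by
    intro i
    change #(ka lam i).ToType ≤ #(Set ((th lam i).ToType))
    rw [ka, mk_ord_toType, Order.succ_le_iff, mk_set, Cardinal.mk_toType]
    exact Cardinal.cantor _
  obtain ⟨e⟩ : Nonempty ((i : Idx lam) → ((ka lam i).ToType ↪ Set ((th lam i).ToType))) :=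
    ⟨fun i => (h1 i).some⟩
  refine ⟨fun i η x => ∃ (h : η < ka lam i) (h' : x < th lam i),
    ToType.mk ⟨x, h'⟩ ∈ e i (ToType.mk ⟨η, h⟩), ?_⟩
  intro i η η' hη hη' hne
  by_contra hcon
  push Not at hcon
  apply hne
  have h2 : e i (ToType.mk ⟨η, hη⟩) = e i (ToType.mk ⟨η', hη'⟩) := by
    ext y
    have h3 := hcon y.toOrd.1 y.toOrd.2
    have h4 : ToType.mk ⟨y.toOrd.1, y.toOrd.2⟩ = y := by
      simp [ToType.toOrd]
    constructor
    · intro h5
      obtain ⟨_, _, h6⟩ := h3.1 ⟨hη, y.toOrd.2, by rw [h4]; exact h5⟩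
      rw [h4] at h6
      exact h6
    · intro h5
      obtain ⟨_, _, h6⟩ := h3.2 ⟨hη', y.toOrd.2, by rw [h4]; exact h5⟩
      rw [h4] at h6
      exact h6
  have h3 := ToType.mk.injective ((e i).injective h2)
  exact congrArg Subtype.val h3

/-- Hereditarily exact ranks are unbounded below the successor of `lam`. -/
theorem exists_HE' (hs : lam.IsSingular) (hcof : ℵ₀ < lam.ord.cof)
    (hyp : ∀ τ < lam, τ.ord.cof = lam.ord.cof → τ ^ lam.ord.cof ≤ lam)
    {D : CatchData (Idx lam)} (hκ : D.κ = ka lam) (hC : #D.Code ≤ lam)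
    {α : Ordinal.{u}} (hα : α < (Order.succ lam).ord) :
    ∃ ζ, α ≤ ζ ∧ ζ < (Order.succ lam).ord ∧ ∃ (T : Set (Idx lam)) (f : Idx lam → Ordinal.{u}),
      HE D (JNS hcof) ζ T f := by
  have hinf := Idx_infinite hcof
  have h1 : (Order.succ lam.ord.cof).ord < lam.ord := by
    rw [ord_lt_ord]
    exact hs.isSuccLimit.succ_lt (cof_lt hs)
  obtain ⟨i0, hi0⟩ := th_cofinal _ h1
  refine exists_HE (Idx_bdd hcof) hs.aleph0_le hC (mk_Set_le hs hcof hyp) (JNS_proper hcof) ?_ i0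
    ?_ ?_ hα
  · rw [mk_Idx]
    exact Order.succ_le_of_lt (cof_lt hs)
  · intro i hi
    rw [hκ, mk_Idx, ka, (isRegular_ka i).cof_ord]
    refine lt_of_le_of_lt ?_ (Order.lt_succ _)
    have h2 := Ordinal.card_le_card (hi0 i hi).le
    rwa [card_ord] at h2
  · intro α hα
    rw [hκ]
    exact exists_large _ α hα

end Pool.Agent.Helper92.SC
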