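import Pool.Agent.Helper98.Main1

/-!
The `Σ₁` formula defining the bad colouring (version with covers).
-/

universe u

namespace Pool.Agent.Helper92.SC

open Pool.Agent.Helper98
open ZFSet (pair)

/-- `S` labels a cover by pieces satisfying `P`. -/
def CorrS (ζ h R L A Dm Cv : ZFSet.{u}) : Prop :=
  ∀ γ ∈ ζ, ∀ φ ∈ L, (pair φ γ ∈ R ↔ ∀ δ ∈ γ, ∃ s ∈ L, pair s φ ∈ Cv ∧
    ∀ ξ ∈ L, ∃ φ' ∈ L, pair s (pair ξ φ') ∈ Dm ∧ LtR h A φ' φ ∧ pair φ' δ ∈ R)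

def BigS (R L Dm U β : ZFSet.{u}) : Prop :=
  ∃ s ∈ L, s ∈ U ∧ ∀ ξ ∈ L, ∃ φ' ∈ L, pair s (pair ξ φ') ∈ Dm ∧ pair φ' β ∈ R

def ExS (a R h L A B1 C : ZFSet.{u}) : Prop := ∃ k ∈ L, InvR k R h L A B1 C a

def LeS (a b : ZFSet.{u}) : Prop := ∀ x ∈ a, x ∈ b

def MinS (α a R h L A B1 C : ZFSet.{u}) : Prop :=
  LeS α a ∧ ExS a R h L A B1 C ∧ ∀ γ ∈ a, LeS α γ → ¬ ExS γ R h L A B1 C

/-- The matrix of the formula, with a bound `w` for the three witnesses. -/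
def MatS (w α β y K L A Dm Cv U C B1 G1 G2 : ZFSet.{u}) : Prop :=
  ∃ ζ ∈ w, ∃ h ∈ w, ∃ R ∈ w, ∃ a ∈ K, ∃ b ∈ K, (b ∈ ζ ∧ LeS b ζ) ∧ GoodR h L G1 G2 ∧
    CorrS ζ h R L A Dm Cv ∧ BigS R L Dm U b ∧ MinS α a R h L A B1 C ∧ MinS β b R h L A B1 C ∧
    (ColR a b y R h L A B1 C ∨ (a = b ∧ y = ∅))

variable {n : ℕ} {a b c d e p q t k K R h L A Dm Cv U C B1 G1 G2 y α β ζ w s φ δ γ :
  (Fin n → ZFSet.{u}) → ZFSet.{u}}

theorem D0.leS (ha : Var a) (hb : Var b) : D0 (fun v => LeS (a v) (b v)) :=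
  D0.ball (R := fun v x => x ∈ b v) ha (D0.mem .zero hb.tail)

theorem D0.corrS_inner (hs : Var s) (hφ : Var φ) (hδ : Var δ) (hh : Var h) (hR : Var R)
    (hL : Var L) (hA : Var A) (hDm : Var Dm) :
    D0 (fun v => ∀ ξ ∈ L v, ∃ φ' ∈ L v, pair (s v) (pair ξ φ') ∈ Dm v ∧
      LtR (h v) (A v) φ' (φ v) ∧ pair φ' (δ v) ∈ R v) := by
  refine D0.ball (R := fun v ξ => ∃ φ' ∈ L v, pair (s v) (pair ξ φ') ∈ Dm v ∧
      LtR (h v) (A v) φ' (φ v) ∧ pair φ' (δ v) ∈ R v) hL ?_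
  refine D0.bex (R := fun w φ' => pair (s (Fin.tail w)) (pair (w 0) φ') ∈ Dm (Fin.tail w) ∧
      LtR (h (Fin.tail w)) (A (Fin.tail w)) φ' (φ (Fin.tail w)) ∧
      pair φ' (δ (Fin.tail w)) ∈ R (Fin.tail w)) hL.tail ?_
  exact (D0.tripMem hs.tail.tail Var.zero.tail .zero hDm.tail.tail).and
    ((D0.ltR hh.tail.tail hA.tail.tail .zero hφ.tail.tail).and
      (D0.pairMem .zero hδ.tail.tail hR.tail.tail))

theorem D0.corrS (hζ : Var ζ) (hh : Var h) (hR : Var R) (hL : Var L) (hA : Var A) (hDm : Var Dm)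
    (hCv : Var Cv) :
    D0 (fun v => CorrS (ζ v) (h v) (R v) (L v) (A v) (Dm v) (Cv v)) := by
  refine D0.ball (R := fun v γ => ∀ φ ∈ L v, (pair φ γ ∈ R v ↔ ∀ δ ∈ γ, ∃ s ∈ L v,
    pair s φ ∈ Cv v ∧ ∀ ξ ∈ L v, ∃ φ' ∈ L v, pair s (pair ξ φ') ∈ Dm v ∧
      LtR (h v) (A v) φ' φ ∧ pair φ' δ ∈ R v)) hζ ?_
  refine D0.ball (R := fun w φ => (pair φ (w 0) ∈ R (Fin.tail w) ↔ ∀ δ ∈ w 0,
    ∃ s ∈ L (Fin.tail w), pair s φ ∈ Cv (Fin.tail w) ∧ ∀ ξ ∈ L (Fin.tail w),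
      ∃ φ' ∈ L (Fin.tail w), pair s (pair ξ φ') ∈ Dm (Fin.tail w) ∧
      LtR (h (Fin.tail w)) (A (Fin.tail w)) φ' φ ∧ pair φ' δ ∈ R (Fin.tail w))) hL.tail ?_
  refine (D0.pairMem .zero Var.zero.tail hR.tail.tail).iff ?_
  refine D0.ball (a := fun w => Fin.tail w 0) (R := fun w δ =>
    ∃ s ∈ L (Fin.tail (Fin.tail w)), pair s (w 0) ∈ Cv (Fin.tail (Fin.tail w)) ∧
      ∀ ξ ∈ L (Fin.tail (Fin.tail w)), ∃ φ' ∈ L (Fin.tail (Fin.tail w)),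
      pair s (pair ξ φ') ∈ Dm (Fin.tail (Fin.tail w)) ∧
      LtR (h (Fin.tail (Fin.tail w))) (A (Fin.tail (Fin.tail w))) φ' (w 0) ∧
      pair φ' δ ∈ R (Fin.tail (Fin.tail w))) Var.zero.tail ?_
  refine D0.bex (R := fun w s => pair s (Fin.tail w 0) ∈ Cv (Fin.tail (Fin.tail (Fin.tail w))) ∧
      ∀ ξ ∈ L (Fin.tail (Fin.tail (Fin.tail w))), ∃ φ' ∈ L (Fin.tail (Fin.tail (Fin.tail w))),
      pair s (pair ξ φ') ∈ Dm (Fin.tail (Fin.tail (Fin.tail w))) ∧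
      LtR (h (Fin.tail (Fin.tail (Fin.tail w)))) (A (Fin.tail (Fin.tail (Fin.tail w)))) φ'
        (Fin.tail w 0) ∧
      pair φ' (w 0) ∈ R (Fin.tail (Fin.tail (Fin.tail w)))) hL.tail.tail.tail ?_
  refine (D0.pairMem .zero Var.zero.tail.tail hCv.tail.tail.tail.tail).and ?_
  exact D0.corrS_inner .zero Var.zero.tail.tail Var.zero.tail hh.tail.tail.tail.tail
    hR.tail.tail.tail.tail hL.tail.tail.tail.tail hA.tail.tail.tail.tail hDm.tail.tail.tail.tail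

theorem D0.bigS (hR : Var R) (hL : Var L) (hDm : Var Dm) (hU : Var U) (hβ : Var β) :
    D0 (fun v => BigS (R v) (L v) (Dm v) (U v) (β v)) := by
  refine D0.bex (R := fun v s => s ∈ U v ∧ ∀ ξ ∈ L v, ∃ φ' ∈ L v, pair s (pair ξ φ') ∈ Dm v ∧
    pair φ' (β v) ∈ R v) hL ?_
  refine (D0.mem .zero hU.tail).and ?_
  refine D0.ball (R := fun w ξ => ∃ φ' ∈ L (Fin.tail w), pair (w 0) (pair ξ φ') ∈ Dm (Fin.tail w) ∧
    pair φ' (β (Fin.tail w)) ∈ R (Fin.tail w)) hL.tail ?_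
  refine D0.bex (R := fun w φ' => pair (Fin.tail w 0) (pair (w 0) φ') ∈ Dm (Fin.tail (Fin.tail w)) ∧
    pair φ' (β (Fin.tail (Fin.tail w))) ∈ R (Fin.tail (Fin.tail w))) hL.tail.tail ?_
  exact (D0.tripMem Var.zero.tail.tail Var.zero.tail .zero hDm.tail.tail.tail).and
    (D0.pairMem .zero hβ.tail.tail.tail hR.tail.tail.tail)

theorem D0.exS (ha : Var a) (hR : Var R) (hh : Var h) (hL : Var L) (hA : Var A) (hB1 : Var B1)
    (hC : Var C) : D0 (fun v => ExS (a v) (R v) (h v) (L v) (A v) (B1 v) (C v)) :=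
  D0.bex (R := fun v k => InvR k (R v) (h v) (L v) (A v) (B1 v) (C v) (a v)) hL
    (D0.invR .zero hR.tail hh.tail hL.tail hA.tail hB1.tail hC.tail ha.tail)

theorem D0.minS (hα : Var α) (ha : Var a) (hR : Var R) (hh : Var h) (hL : Var L) (hA : Var A)
    (hB1 : Var B1) (hC : Var C) :
    D0 (fun v => MinS (α v) (a v) (R v) (h v) (L v) (A v) (B1 v) (C v)) := by
  refine (D0.leS hα ha).and ((D0.exS ha hR hh hL hA hB1 hC).and ?_)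
  refine D0.ball (R := fun v γ => LeS (α v) γ → ¬ ExS γ (R v) (h v) (L v) (A v) (B1 v) (C v))
    ha ?_
  exact (D0.leS hα.tail .zero).imp
    (D0.exS .zero hR.tail hh.tail hL.tail hA.tail hB1.tail hC.tail).not

theorem D0.matS (hw : Var w) (hα : Var α) (hβ : Var β) (hy : Var y) (hK : Var K) (hL : Var L)
    (hA : Var A) (hDm : Var Dm) (hCv : Var Cv) (hU : Var U) (hC : Var C) (hB1 : Var B1)
    (hG1 : Var G1) (hG2 : Var G2) :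
    D0 (fun v => MatS (w v) (α v) (β v) (y v) (K v) (L v) (A v) (Dm v) (Cv v) (U v) (C v) (B1 v)
      (G1 v) (G2 v)) := by
  refine D0.bex (R := fun v ζ => ∃ h ∈ w v, ∃ R ∈ w v, ∃ a ∈ K v, ∃ b ∈ K v,
    (b ∈ ζ ∧ LeS b ζ) ∧ GoodR h (L v) (G1 v) (G2 v) ∧
    CorrS ζ h R (L v) (A v) (Dm v) (Cv v) ∧ BigS R (L v) (Dm v) (U v) b ∧
    MinS (α v) a R h (L v) (A v) (B1 v) (C v) ∧ MinS (β v) b R h (L v) (A v) (B1 v) (C v) ∧
    (ColR a b (y v) R h (L v) (A v) (B1 v) (C v) ∨ (a = b ∧ y v = ∅))) hw ?_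
  refine D0.bex (R := fun v h => ∃ R ∈ w (Fin.tail v), ∃ a ∈ K (Fin.tail v),
    ∃ b ∈ K (Fin.tail v), (b ∈ v 0 ∧ LeS b (v 0)) ∧
    GoodR h (L (Fin.tail v)) (G1 (Fin.tail v)) (G2 (Fin.tail v)) ∧
    CorrS (v 0) h R (L (Fin.tail v)) (A (Fin.tail v)) (Dm (Fin.tail v)) (Cv (Fin.tail v)) ∧
    BigS R (L (Fin.tail v)) (Dm (Fin.tail v)) (U (Fin.tail v)) b ∧
    MinS (α (Fin.tail v)) a R h (L (Fin.tail v)) (A (Fin.tail v)) (B1 (Fin.tail v))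
      (C (Fin.tail v)) ∧
    MinS (β (Fin.tail v)) b R h (L (Fin.tail v)) (A (Fin.tail v)) (B1 (Fin.tail v))
      (C (Fin.tail v)) ∧
    (ColR a b (y (Fin.tail v)) R h (L (Fin.tail v)) (A (Fin.tail v)) (B1 (Fin.tail v))
      (C (Fin.tail v)) ∨ (a = b ∧ y (Fin.tail v) = ∅))) hw.tail ?_
  refine D0.bex (R := fun v R => ∃ a ∈ K (Fin.tail (Fin.tail v)),
    ∃ b ∈ K (Fin.tail (Fin.tail v)), (b ∈ Fin.tail v 0 ∧ LeS b (Fin.tail v 0)) ∧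
    GoodR (v 0) (L (Fin.tail (Fin.tail v))) (G1 (Fin.tail (Fin.tail v)))
      (G2 (Fin.tail (Fin.tail v))) ∧
    CorrS (Fin.tail v 0) (v 0) R (L (Fin.tail (Fin.tail v))) (A (Fin.tail (Fin.tail v)))
      (Dm (Fin.tail (Fin.tail v))) (Cv (Fin.tail (Fin.tail v))) ∧
    BigS R (L (Fin.tail (Fin.tail v))) (Dm (Fin.tail (Fin.tail v))) (U (Fin.tail (Fin.tail v))) b ∧
    MinS (α (Fin.tail (Fin.tail v))) a R (v 0) (L (Fin.tail (Fin.tail v)))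
      (A (Fin.tail (Fin.tail v))) (B1 (Fin.tail (Fin.tail v))) (C (Fin.tail (Fin.tail v))) ∧
    MinS (β (Fin.tail (Fin.tail v))) b R (v 0) (L (Fin.tail (Fin.tail v)))
      (A (Fin.tail (Fin.tail v))) (B1 (Fin.tail (Fin.tail v))) (C (Fin.tail (Fin.tail v))) ∧
    (ColR a b (y (Fin.tail (Fin.tail v))) R (v 0) (L (Fin.tail (Fin.tail v)))
      (A (Fin.tail (Fin.tail v))) (B1 (Fin.tail (Fin.tail v))) (C (Fin.tail (Fin.tail v))) ∨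
      (a = b ∧ y (Fin.tail (Fin.tail v)) = ∅))) hw.tail.tail ?_
  refine D0.bex (R := fun v a => ∃ b ∈ K (Fin.tail (Fin.tail (Fin.tail v))),
    (b ∈ Fin.tail (Fin.tail v) 0 ∧ LeS b (Fin.tail (Fin.tail v) 0)) ∧
    GoodR (Fin.tail v 0) (L (Fin.tail (Fin.tail (Fin.tail v))))
      (G1 (Fin.tail (Fin.tail (Fin.tail v)))) (G2 (Fin.tail (Fin.tail (Fin.tail v)))) ∧
    CorrS (Fin.tail (Fin.tail v) 0) (Fin.tail v 0) (v 0) (L (Fin.tail (Fin.tail (Fin.tail v))))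
      (A (Fin.tail (Fin.tail (Fin.tail v)))) (Dm (Fin.tail (Fin.tail (Fin.tail v))))
      (Cv (Fin.tail (Fin.tail (Fin.tail v)))) ∧
    BigS (v 0) (L (Fin.tail (Fin.tail (Fin.tail v)))) (Dm (Fin.tail (Fin.tail (Fin.tail v))))
      (U (Fin.tail (Fin.tail (Fin.tail v)))) b ∧
    MinS (α (Fin.tail (Fin.tail (Fin.tail v)))) a (v 0) (Fin.tail v 0)
      (L (Fin.tail (Fin.tail (Fin.tail v)))) (A (Fin.tail (Fin.tail (Fin.tail v))))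
      (B1 (Fin.tail (Fin.tail (Fin.tail v)))) (C (Fin.tail (Fin.tail (Fin.tail v)))) ∧
    MinS (β (Fin.tail (Fin.tail (Fin.tail v)))) b (v 0) (Fin.tail v 0)
      (L (Fin.tail (Fin.tail (Fin.tail v)))) (A (Fin.tail (Fin.tail (Fin.tail v))))
      (B1 (Fin.tail (Fin.tail (Fin.tail v)))) (C (Fin.tail (Fin.tail (Fin.tail v)))) ∧
    (ColR a b (y (Fin.tail (Fin.tail (Fin.tail v)))) (v 0) (Fin.tail v 0)
      (L (Fin.tail (Fin.tail (Fin.tail v)))) (A (Fin.tail (Fin.tail (Fin.tail v))))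
      (B1 (Fin.tail (Fin.tail (Fin.tail v)))) (C (Fin.tail (Fin.tail (Fin.tail v)))) ∨
      (a = b ∧ y (Fin.tail (Fin.tail (Fin.tail v))) = ∅))) hK.tail.tail.tail ?_
  refine D0.bex (R := fun v b =>
    (b ∈ Fin.tail (Fin.tail (Fin.tail v)) 0 ∧ LeS b (Fin.tail (Fin.tail (Fin.tail v)) 0)) ∧
    GoodR (Fin.tail (Fin.tail v) 0) (L (Fin.tail (Fin.tail (Fin.tail (Fin.tail v)))))
      (G1 (Fin.tail (Fin.tail (Fin.tail (Fin.tail v)))))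
      (G2 (Fin.tail (Fin.tail (Fin.tail (Fin.tail v))))) ∧
    CorrS (Fin.tail (Fin.tail (Fin.tail v)) 0) (Fin.tail (Fin.tail v) 0) (Fin.tail v 0)
      (L (Fin.tail (Fin.tail (Fin.tail (Fin.tail v)))))
      (A (Fin.tail (Fin.tail (Fin.tail (Fin.tail v)))))
      (Dm (Fin.tail (Fin.tail (Fin.tail (Fin.tail v)))))
      (Cv (Fin.tail (Fin.tail (Fin.tail (Fin.tail v))))) ∧
    BigS (Fin.tail v 0) (L (Fin.tail (Fin.tail (Fin.tail (Fin.tail v)))))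
      (Dm (Fin.tail (Fin.tail (Fin.tail (Fin.tail v)))))
      (U (Fin.tail (Fin.tail (Fin.tail (Fin.tail v))))) b ∧
    MinS (α (Fin.tail (Fin.tail (Fin.tail (Fin.tail v))))) (v 0) (Fin.tail v 0)
      (Fin.tail (Fin.tail v) 0)
      (L (Fin.tail (Fin.tail (Fin.tail (Fin.tail v)))))
      (A (Fin.tail (Fin.tail (Fin.tail (Fin.tail v)))))
      (B1 (Fin.tail (Fin.tail (Fin.tail (Fin.tail v)))))
      (C (Fin.tail (Fin.tail (Fin.tail (Fin.tail v))))) ∧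
    MinS (β (Fin.tail (Fin.tail (Fin.tail (Fin.tail v))))) b (Fin.tail v 0)
      (Fin.tail (Fin.tail v) 0)
      (L (Fin.tail (Fin.tail (Fin.tail (Fin.tail v)))))
      (A (Fin.tail (Fin.tail (Fin.tail (Fin.tail v)))))
      (B1 (Fin.tail (Fin.tail (Fin.tail (Fin.tail v)))))
      (C (Fin.tail (Fin.tail (Fin.tail (Fin.tail v))))) ∧
    (ColR (v 0) b (y (Fin.tail (Fin.tail (Fin.tail (Fin.tail v))))) (Fin.tail v 0)
      (Fin.tail (Fin.tail v) 0)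
      (L (Fin.tail (Fin.tail (Fin.tail (Fin.tail v)))))
      (A (Fin.tail (Fin.tail (Fin.tail (Fin.tail v)))))
      (B1 (Fin.tail (Fin.tail (Fin.tail (Fin.tail v)))))
      (C (Fin.tail (Fin.tail (Fin.tail (Fin.tail v))))) ∨
      (v 0 = b ∧ y (Fin.tail (Fin.tail (Fin.tail (Fin.tail v)))) = ∅))) hK.tail.tail.tail.tail ?_
  have z1 : Var (fun w : Fin (n + 5) → ZFSet.{u} => Fin.tail w 0) := Var.zero.tail
  have z2 : Var (fun w : Fin (n + 5) → ZFSet.{u} => Fin.tail (Fin.tail w) 0) :=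
    Var.zero.tail.tail
  have z3 : Var (fun w : Fin (n + 5) → ZFSet.{u} => Fin.tail (Fin.tail (Fin.tail w)) 0) :=
    Var.zero.tail.tail.tail
  have z4 : Var (fun w : Fin (n + 5) → ZFSet.{u} =>
    Fin.tail (Fin.tail (Fin.tail (Fin.tail w))) 0) := Var.zero.tail.tail.tail.tail
  have hL' := hL.tail.tail.tail.tail.tail
  have hA' := hA.tail.tail.tail.tail.tail
  have hDm' := hDm.tail.tail.tail.tail.tail
  have hCv' := hCv.tail.tail.tail.tail.tail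
  have hU' := hU.tail.tail.tail.tail.tail
  have hC' := hC.tail.tail.tail.tail.tail
  have hB1' := hB1.tail.tail.tail.tail.tail
  have hG1' := hG1.tail.tail.tail.tail.tail
  have hG2' := hG2.tail.tail.tail.tail.tail
  have hα' := hα.tail.tail.tail.tail.tail
  have hβ' := hβ.tail.tail.tail.tail.tail
  have hy' := hy.tail.tail.tail.tail.tail
  exact (((D0.mem .zero z4).and (D0.leS .zero z4)).and ((D0.goodR z3 hL' hG1' hG2').and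
    ((D0.corrS z4 z3 z2 hL' hA' hDm' hCv').and ((D0.bigS z2 hL' hDm' hU' .zero).and
    ((D0.minS hα' z1 z2 z3 hL' hA' hB1' hC').and ((D0.minS hβ' .zero z2 z3 hL' hA' hB1' hC').and
    ((D0.colR z1 .zero hy' z2 z3 hL' hA' hB1' hC').or
      ((D0.eq z1 .zero).and (D0.eqEmpty hy')))))))))

/-- The `Σ₁` formula. -/
theorem exists_sigma_one_formula : ∃ φ : Fml 13, φ.IsSigma 1 ∧ ∀ v : Fin 13 → ZFSet.{u},
    φ.Sat v ↔ ∃ w, MatS w (v 0) (v 1) (v 2) (v 3) (v 4) (v 5) (v 6) (v 7) (v 8) (v 9) (v 10)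
      (v 11) (v 12) := by
  have h : D0 (fun w : Fin 14 → ZFSet.{u} =>
      MatS (w 0) (w 1) (w 2) (w 3) (w 4) (w 5) (w 6) (w 7) (w 8) (w 9) (w 10) (w 11) (w 12)
        (w 13)) :=
    D0.matS ⟨0, rfl⟩ ⟨1, rfl⟩ ⟨2, rfl⟩ ⟨3, rfl⟩ ⟨4, rfl⟩ ⟨5, rfl⟩ ⟨6, rfl⟩ ⟨7, rfl⟩ ⟨8, rfl⟩
      ⟨9, rfl⟩ ⟨10, rfl⟩ ⟨11, rfl⟩ ⟨12, rfl⟩ ⟨13, rfl⟩
  obtain ⟨ψ, h1, h2⟩ := h
  refine ⟨.ex (.neg (.neg ψ)), ⟨.neg ψ, .neg h1, rfl⟩, ?_⟩
  intro v
  refine exists_congr fun w => ?_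
  refine not_not.trans ?_
  exact h2 (Fin.cons w v)

end Pool.Agent.Helper92.SC
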