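import Pool.Agent.Helper92.SC.Dat
import Pool.Agent.Helper92.SC.Form
import Pool.Agent.Helper98.Hered

/-!
Encoding of the combinatorial data into sets, and correctness of the formula.
-/

open Set Ordinal Cardinal

universe u

namespace Pool.Agent.Helper92.SC

open Pool.Agent.Helper98
open ZFSet (pair)

variable {lam : Cardinal.{u}}

/-- unary relations on labels as sets -/
noncomputable def rel1 (P : TT lam → Prop) : ZFSet.{u} :=
  ZFSet.range (fun p : {p : TT lam // P p} => enc p.1)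

theorem mem_rel1 {P : TT lam → Prop} {a : TT lam} : enc a ∈ rel1 P ↔ P a := by
  rw [rel1, ZFSet.mem_range]
  constructor
  · rintro ⟨⟨x, h⟩, h1⟩
    dsimp only at h1
    rw [enc_injective h1] at h
    exact h
  · intro h
    exact ⟨⟨a, h⟩, rfl⟩

theorem InH.rel1 (hlam : ℵ₀ ≤ lam) (P : TT lam → Prop) :
    InH (Order.succ lam) (rel1 P) := by
  have hκ : (Order.succ lam).IsRegular := isRegular_succ hlam
  refine InH.of_elems hκ (card_range_lt ?_ _) ?_
  · rw [Order.lt_succ_iff]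
    refine (mk_subtype_le _).trans ?_
    rw [mk_ord_toType]
  · intro y hy
    obtain ⟨p, rfl⟩ := ZFSet.mem_range.1 hy
    exact InH.enc _

section Correct

variable (J : NIdeal (Idx lam)) (D : CatchData (Idx lam))
  (X : Idx lam → Ordinal.{u} → Ordinal.{u} → Prop)
  (dE : TT lam → LE lam) (dC : TT lam → D.Code) (dS : TT lam → Idx lam → Set (Idx lam))
  (dI : TT lam → Idx lam) (dK : TT lam → Set (Idx lam) × D.Code × Bool)

noncomputable def pA : ZFSet.{u} := rel3 (fun p φ' φ : TT lam =>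
  (dE p).1 ∈ D.dom (dC φ') → (dE p).1 ∈ D.dom (dC φ) ∧
    D.S (dE p).1 (vE dE p) (D.val (dC φ') (dE p).1) <
    D.S (dE p).1 (vE dE p) (D.val (dC φ) (dE p).1))

noncomputable def pDm : ZFSet.{u} := rel3 (fun s ξ φ : TT lam => D.dom (dC φ) = dS s (dI ξ))

noncomputable def pCv : ZFSet.{u} := rel2 (fun s φ : TT lam =>
  {i ∈ D.dom (dC φ) | ¬ ∃ ξ, ξ < i ∧ i ∈ dS s ξ} ∈ J.sets)

noncomputable def pU : ZFSet.{u} := rel1 (fun s : TT lam =>
  {i ∈ (Set.univ : Set (Idx lam)) | ¬ ∃ ξ, ξ < i ∧ i ∈ dS s ξ} ∈ J.sets)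

noncomputable def pC : ZFSet.{u} := rel3 (fun p k φ : TT lam =>
  (dE p).1 ∈ D.dom (dC φ) →
    (X (dE p).1 (D.S (dE p).1 (vE dE p) (D.val (dC φ) (dE p).1)) (D.val (dK k).2.1 (dE p).1) ↔
      (dK k).2.2 = true))

noncomputable def pB1 : ZFSet.{u} := rel2 (fun k φ : TT lam =>
  ¬ (D.dom (dC φ) ∉ J.sets ∧ D.dom (dC φ) ⊆ (dK k).1))

/-- the truth value of the invariant with label `k` at the ordinal `a` -/
def sInv (a : Ordinal.{u}) (k : TT lam) : Prop :=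
  D.Inv J a (dK k).1 (fun i η => (X i η (D.val (dK k).2.1 i) ↔ (dK k).2.2 = true))

variable {J D X dE dC dS dI dK}

theorem Dec.ltR_iff {h : ZFSet.{u}} {hf : Idx lam → Ordinal.{u}} (H : Dec dE h hf)
    (a b : TT lam) : LtR h (pA D dE dC) (enc a) (enc b) ↔ D.Below hf (dC a) (dC b) := by
  refine H.forall_iff (Q := fun p => pair p (pair (enc a) (enc b)) ∈ pA D dE dC)
    (P := fun i v => i ∈ D.dom (dC a) → i ∈ D.dom (dC b) ∧
    D.S i v (D.val (dC a) i) < D.S i v (D.val (dC b) i)) ?_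
  intro t
  rw [pA, pair_mem_rel3]

/-- `R` is correct below `b` (inclusive) -/
def RGood (J : NIdeal (Idx lam)) (D : CatchData (Idx lam)) (dC : TT lam → D.Code)
    (hf : Idx lam → Ordinal.{u}) (R : ZFSet.{u}) (b : Ordinal.{u}) : Prop :=
  ∀ γ, γ ≤ b → ∀ a : TT lam, (pair (enc a) γ.toZFSet ∈ R ↔
    RK J (D.dom (dC a)) (D.ev hf (dC a)) γ)

theorem local_rec' (hhcof : ℵ₀ < lam.ord.cof) {hf : Idx lam → Ordinal.{u}}
    (hh : ∀ i, hf i < D.κ i) (hpos : ∀ i, 0 < hf i)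
    (hC : Function.Surjective dC) (hS : Function.Surjective dS) (hI : Function.Surjective dI)
    (a : TT lam) (γ : Ordinal.{u}) :
    RK J (D.dom (dC a)) (D.ev hf (dC a)) γ ↔
      ∀ δ, δ < γ → ∃ s : TT lam, {i ∈ D.dom (dC a) | ¬ ∃ ξ, ξ < i ∧ i ∈ dS s ξ} ∈ J.sets ∧
        ∀ ξ : TT lam, ∃ a' : TT lam, D.dom (dC a') = dS s (dI ξ) ∧ D.Below hf (dC a') (dC a) ∧
          RK J (D.dom (dC a')) (D.ev hf (dC a')) δ := by
  have := Idx_infinite hhcof
  refine (CatchData.local_rec hh hpos (dC a) γ).trans ?_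
  refine forall_congr' fun δ => imp_congr Iff.rfl ?_
  constructor
  · rintro ⟨s, h1, h2⟩
    obtain ⟨s', rfl⟩ := hS s
    refine ⟨s', h2, ?_⟩
    intro ξ
    obtain ⟨φ, h3⟩ := h1 (dI ξ)
    obtain ⟨a', rfl⟩ := hC φ
    exact ⟨a', h3⟩
  · rintro ⟨s, h2, h1⟩
    refine ⟨dS s, ?_, h2⟩
    intro ξ
    obtain ⟨ξ', rfl⟩ := hI ξ
    obtain ⟨a', h3⟩ := h1 ξ'
    exact ⟨dC a', h3⟩

theorem Dec.corr_key (hhcof : ℵ₀ < lam.ord.cof) {h R : ZFSet.{u}}
    {hf : Idx lam → Ordinal.{u}} (H : Dec dE h hf) (hκ : D.κ = ka lam)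
    (hC : Function.Surjective dC) (hS : Function.Surjective dS) (hI : Function.Surjective dI)
    {γ : Ordinal.{u}} (ih : ∀ δ, δ < γ → ∀ a : TT lam, (pair (enc a) δ.toZFSet ∈ R ↔
      RK J (D.dom (dC a)) (D.ev hf (dC a)) δ)) (a : TT lam) :
    (∀ δ ∈ γ.toZFSet, ∃ s ∈ lam.ord.toZFSet, pair s (enc a) ∈ pCv J D dC dS ∧
      ∀ ξ ∈ lam.ord.toZFSet, ∃ φ' ∈ lam.ord.toZFSet, pair s (pair ξ φ') ∈ pDm D dC dS dI ∧
        LtR h (pA D dE dC) φ' (enc a) ∧ pair φ' δ ∈ R) ↔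
      RK J (D.dom (dC a)) (D.ev hf (dC a)) γ := by
  rw [local_rec' hhcof (by rw [hκ]; exact H.lt) H.pos hC hS hI, forall_mem_ord]
  refine forall_congr' fun δ => forall_congr' fun hδ => ?_
  rw [exists_mem_L]
  refine exists_congr fun s => ?_
  rw [pCv, pair_mem_rel2, forall_mem_L]
  refine and_congr Iff.rfl (forall_congr' fun ξ => ?_)
  rw [exists_mem_L]
  refine exists_congr fun a' => ?_
  rw [pDm, pair_mem_rel3, Dec.ltR_iff H, ih δ hδ]

theorem Dec.corr_imp (hhcof : ℵ₀ < lam.ord.cof) {h R ζ : ZFSet.{u}}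
    {hf : Idx lam → Ordinal.{u}} (H : Dec dE h hf) (hκ : D.κ = ka lam)
    (hC : Function.Surjective dC) (hS : Function.Surjective dS) (hI : Function.Surjective dI)
    {b : Ordinal.{u}} (h1 : b.toZFSet ∈ ζ) (h2 : LeS b.toZFSet ζ)
    (h3 : CorrS ζ h R lam.ord.toZFSet (pA D dE dC) (pDm D dC dS dI) (pCv J D dC dS)) :
    RGood J D dC hf R b := by
  intro γ
  induction γ using WellFoundedLT.induction with
  | ind γ ih =>
    intro hγ a
    have hζ : γ.toZFSet ∈ ζ := by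
      rcases hγ.eq_or_lt with h4 | h4
      · rw [h4]
        exact h1
      · exact h2 _ (Ordinal.toZFSet_mem_toZFSet_iff.2 h4)
    rw [h3 _ hζ _ (enc_mem_L a)]
    exact Dec.corr_key hhcof H hκ hC hS hI (fun δ hδ => ih δ hδ (hδ.le.trans hγ)) a

theorem Dec.corr_of (hhcof : ℵ₀ < lam.ord.cof) {h R : ZFSet.{u}}
    {hf : Idx lam → Ordinal.{u}} (H : Dec dE h hf) (hκ : D.κ = ka lam)
    (hC : Function.Surjective dC) (hS : Function.Surjective dS) (hI : Function.Surjective dI)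
    {b : Ordinal.{u}} (h3 : RGood J D dC hf R b) :
    CorrS (b + 1).toZFSet h R lam.ord.toZFSet (pA D dE dC) (pDm D dC dS dI)
      (pCv J D dC dS) := by
  unfold CorrS
  rw [forall_mem_ord]
  intro γ hγ
  rw [forall_mem_L]
  intro a
  rw [Order.lt_add_one_iff] at hγ
  rw [h3 γ hγ]
  exact (Dec.corr_key hhcof H hκ hC hS hI (fun δ hδ => h3 δ (hδ.le.trans hγ)) a).symm

theorem Dec.big_iff (hhcof : ℵ₀ < lam.ord.cof) {h R : ZFSet.{u}}
    {hf : Idx lam → Ordinal.{u}} (H : Dec dE h hf) (hκ : D.κ = ka lam)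
    (hC : Function.Surjective dC) (hS : Function.Surjective dS) (hI : Function.Surjective dI)
    {b : Ordinal.{u}} (h3 : RGood J D dC hf R b) :
    BigS R lam.ord.toZFSet (pDm D dC dS dI) (pU J dS) b.toZFSet ↔ RK J Set.univ hf (b + 1) := by
  have := Idx_infinite hhcof
  rw [CatchData.local_big (by rw [hκ]; exact H.lt) H.pos, BigS, exists_mem_L]
  constructor
  · rintro ⟨s, h1, h2⟩
    rw [pU, mem_rel1] at h1
    rw [forall_mem_L] at h2
    refine ⟨dS s, ?_, h1⟩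
    intro ξ
    obtain ⟨ξ', rfl⟩ := hI ξ
    obtain ⟨x, hx, h4, h5⟩ := h2 ξ'
    obtain ⟨a, rfl⟩ := mem_L_iff.1 hx
    rw [pDm, pair_mem_rel3] at h4
    exact ⟨dC a, h4, (h3 b le_rfl a).1 h5⟩
  · rintro ⟨s, h1, h2⟩
    obtain ⟨s', rfl⟩ := hS s
    refine ⟨s', ?_, ?_⟩
    · rw [pU, mem_rel1]
      exact h2
    · rw [forall_mem_L]
      intro ξ
      obtain ⟨φ, h4, h5⟩ := h1 (dI ξ)
      obtain ⟨a, rfl⟩ := hC φ
      refine ⟨enc a, enc_mem_L a, ?_, (h3 b le_rfl a).2 h5⟩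
      rw [pDm, pair_mem_rel3]
      exact h4

theorem Dec.inv_iff (hhcof : ℵ₀ < lam.ord.cof) {h R : ZFSet.{u}}
    {hf : Idx lam → Ordinal.{u}} (H : Dec dE h hf) (hκ : D.κ = ka lam)
    (hC : Function.Surjective dC) {b : Ordinal.{u}}
    (h3 : RGood J D dC hf R b) (h4 : RK J Set.univ hf (b + 1)) {a : Ordinal.{u}} (hab : a ≤ b)
    (k : TT lam) :
    InvR (enc k) R h lam.ord.toZFSet (pA D dE dC) (pB1 J D dC dK) (pC D X dE dC dK) a.toZFSet ↔
      sInv J D X dK a k := by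
  have h5 : RK J Set.univ hf (a + 1) := h4.mono_rank (by simpa using hab)
  rw [sInv, CatchData.local_inv (by rw [hκ]; exact H.lt) H.pos h5, InvR, exists_mem_L]
  have key : ∀ c : TT lam, ((¬ pair (enc k) (enc c) ∈ pB1 J D dC dK ∧
      pair (enc c) a.toZFSet ∈ R ∧
      (∀ φ' ∈ lam.ord.toZFSet, LtR h (pA D dE dC) φ' (enc c) → pair φ' a.toZFSet ∈ R →
        pair (enc k) φ' ∈ pB1 J D dC dK) ∧
      ∀ p ∈ h, pair p (pair (enc k) (enc c)) ∈ pC D X dE dC dK) ↔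
      (D.dom (dC c) ∉ J.sets ∧ D.dom (dC c) ⊆ (dK k).1 ∧
      RK J (D.dom (dC c)) (D.ev hf (dC c)) a ∧
      (∀ φ' : D.Code, D.Below hf φ' (dC c) →
        RK J (D.dom φ') (D.ev hf φ') a → D.dom φ' ∈ J.sets) ∧
      ∀ i ∈ D.dom (dC c), (X i (D.ev hf (dC c) i) (D.val (dK k).2.1 i) ↔
        (dK k).2.2 = true))) := by
    intro c
    rw [pB1, pair_mem_rel2, not_not, and_assoc]
    refine and_congr_right fun h6 => and_congr_right fun h7 => ?_
    refine and_congr (h3 a hab c) (and_congr ?_ ?_)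
    · rw [forall_mem_L]
      constructor
      · intro h8 φ'
        obtain ⟨a', rfl⟩ := hC φ'
        intro h9 h10
        have h11 := h8 a' ((Dec.ltR_iff H _ _).2 h9) ((h3 a hab a').2 h10)
        rw [pair_mem_rel2] at h11
        by_contra h12
        exact h11 ⟨h12, fun i hi => h7 (h9 i hi).1⟩
      · intro h8 a' h9 h10
        rw [pair_mem_rel2]
        rintro ⟨h11, _⟩
        exact h11 (h8 _ ((Dec.ltR_iff H _ _).1 h9) ((h3 a hab a').1 h10))
    · refine H.forall_iff (Q := fun p => pair p (pair (enc k) (enc c)) ∈ pC D X dE dC dK)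
        (P := fun i v => i ∈ D.dom (dC c) → (X i (D.S i v (D.val (dC c) i))
          (D.val (dK k).2.1 i) ↔ (dK k).2.2 = true)) ?_
      intro t
      rw [pC, pair_mem_rel3]
  constructor
  · rintro ⟨c, hc⟩
    exact ⟨dC c, (key c).1 hc⟩
  · rintro ⟨φ, hφ⟩
    obtain ⟨c, rfl⟩ := hC φ
    exact ⟨c, (key c).2 hφ⟩

theorem Dec.col_iff (hhcof : ℵ₀ < lam.ord.cof) {h R : ZFSet.{u}}
    {hf : Idx lam → Ordinal.{u}} (H : Dec dE h hf) (hκ : D.κ = ka lam)
    (hC : Function.Surjective dC) {b : Ordinal.{u}}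
    (h3 : RGood J D dC hf R b) (h4 : RK J Set.univ hf (b + 1)) {a : Ordinal.{u}} (hab : a ≤ b)
    (y : ZFSet.{u}) :
    ColR a.toZFSet b.toZFSet y R h lam.ord.toZFSet (pA D dE dC) (pB1 J D dC dK)
      (pC D X dE dC dK) ↔
      ∃ k : TT lam, (∀ k' < k, (sInv J D X dK a k' ↔ sInv J D X dK b k')) ∧
        ((sInv J D X dK a k ∧ ¬ sInv J D X dK b k ∧ y = ∅) ∨
          (¬ sInv J D X dK a k ∧ sInv J D X dK b k ∧ y = {∅})) := by
  rw [ColR, exists_mem_L]
  refine exists_congr fun k => ?_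
  rw [forall_mem_enc, Dec.inv_iff hhcof H hκ hC h3 h4 hab, Dec.inv_iff hhcof H hκ hC h3 h4 le_rfl]
  refine and_congr ?_ Iff.rfl
  refine forall_congr' fun k' => imp_congr Iff.rfl ?_
  rw [Dec.inv_iff hhcof H hκ hC h3 h4 hab, Dec.inv_iff hhcof H hκ hC h3 h4 le_rfl]

theorem Dec.ex_iff (hhcof : ℵ₀ < lam.ord.cof) {h R : ZFSet.{u}}
    {hf : Idx lam → Ordinal.{u}} (H : Dec dE h hf) (hκ : D.κ = ka lam)
    (hC : Function.Surjective dC) {b : Ordinal.{u}}
    (h3 : RGood J D dC hf R b) (h4 : RK J Set.univ hf (b + 1)) {a : Ordinal.{u}} (hab : a ≤ b) :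
    ExS a.toZFSet R h lam.ord.toZFSet (pA D dE dC) (pB1 J D dC dK) (pC D X dE dC dK) ↔
      ∃ k : TT lam, sInv J D X dK a k := by
  rw [ExS, exists_mem_L]
  exact exists_congr fun k => Dec.inv_iff hhcof H hκ hC h3 h4 hab k

theorem leS_ord {a b : Ordinal.{u}} : LeS a.toZFSet b.toZFSet ↔ a ≤ b := by
  rw [LeS, forall_mem_ord]
  constructor
  · intro h
    by_contra hcon
    have h1 := h b (not_le.1 hcon)
    rw [Ordinal.toZFSet_mem_toZFSet_iff] at h1
    exact lt_irrefl _ h1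
  · intro h δ hδ
    exact Ordinal.toZFSet_mem_toZFSet_iff.2 (hδ.trans_le h)

/-- `a` is the least ordinal `≥ α` with a nonempty invariant. -/
def IsE (J : NIdeal (Idx lam)) (D : CatchData (Idx lam))
    (X : Idx lam → Ordinal.{u} → Ordinal.{u} → Prop)
    (dK : TT lam → Set (Idx lam) × D.Code × Bool) (α a : Ordinal.{u}) : Prop :=
  α ≤ a ∧ (∃ k, sInv J D X dK a k) ∧ ∀ γ, γ < a → α ≤ γ → ¬ ∃ k, sInv J D X dK γ k

theorem IsE.unique {α a b : Ordinal.{u}} (ha : IsE J D X dK α a) (hb : IsE J D X dK α b) :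
    a = b := by
  rcases lt_trichotomy a b with h | h | h
  · exact (hb.2.2 a h ha.1 ha.2.1).elim
  · exact h
  · exact (ha.2.2 b h hb.1 hb.2.1).elim

theorem Dec.min_iff (hhcof : ℵ₀ < lam.ord.cof) {h R : ZFSet.{u}}
    {hf : Idx lam → Ordinal.{u}} (H : Dec dE h hf) (hκ : D.κ = ka lam)
    (hC : Function.Surjective dC) {b : Ordinal.{u}}
    (h3 : RGood J D dC hf R b) (h4 : RK J Set.univ hf (b + 1)) {a : Ordinal.{u}} (hab : a ≤ b)
    (α : Ordinal.{u}) :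
    MinS α.toZFSet a.toZFSet R h lam.ord.toZFSet (pA D dE dC) (pB1 J D dC dK)
      (pC D X dE dC dK) ↔ IsE J D X dK α a := by
  rw [MinS, leS_ord, Dec.ex_iff hhcof H hκ hC h3 h4 hab, forall_mem_ord, IsE]
  refine and_congr Iff.rfl (and_congr Iff.rfl (forall_congr' fun γ => forall_congr' fun hγ => ?_))
  rw [leS_ord, Dec.ex_iff hhcof H hκ hC h3 h4 (hγ.le.trans hab)]

theorem mat_iff (hhcof : ℵ₀ < lam.ord.cof) (hκ : D.κ = ka lam) (hE : Function.Surjective dE)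
    (hC : Function.Surjective dC) (hS : Function.Surjective dS) (hI : Function.Surjective dI)
    {α β a b : Ordinal.{u}} (hαβ : α ≤ β) (ha : IsE J D X dK α a) (hb : IsE J D X dK β b)
    (hb' : b < (Order.succ lam).ord) (y : ZFSet.{u}) :
    (∃ w, MatS w α.toZFSet β.toZFSet y (Order.succ lam).ord.toZFSet lam.ord.toZFSet
      (pA D dE dC) (pDm D dC dS dI) (pCv J D dC dS) (pU J dS)
      (pC D X dE dC dK) (pB1 J D dC dK) (pG1 dE) (pG2 dE)) ↔
      ((∃ k : TT lam, (∀ k' < k, (sInv J D X dK a k' ↔ sInv J D X dK b k')) ∧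
        ((sInv J D X dK a k ∧ ¬ sInv J D X dK b k ∧ y = ∅) ∨
          (¬ sInv J D X dK a k ∧ sInv J D X dK b k ∧ y = {∅}))) ∨ (a = b ∧ y = ∅)) := by
  have hab : a ≤ b := by
    by_contra hcon
    exact ha.2.2 b (not_le.1 hcon) (hαβ.trans hb.1) hb.2.1
  constructor
  · rintro ⟨w, ζ, _, h, _, R, _, x, hx, x', hx', ⟨h1, h2⟩, h3, h4, h5, h6, h6', h7⟩
    obtain ⟨a', ha', rfl⟩ := Ordinal.mem_toZFSet_iff.1 hx
    obtain ⟨b', hb'', rfl⟩ := Ordinal.mem_toZFSet_iff.1 hx'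
    have hab' : a' ≤ b' := by
      by_contra hcon
      refine h6.2.2 b'.toZFSet (Ordinal.toZFSet_mem_toZFSet_iff.2 (not_le.1 hcon)) ?_ h6'.2.1
      rw [leS_ord]
      exact hαβ.trans (leS_ord.1 h6'.1)
    obtain ⟨hf, H⟩ := exists_dec hE h3
    have h8 := Dec.corr_imp hhcof H hκ hC hS hI h1 h2 h4
    have h9 := (Dec.big_iff hhcof H hκ hC hS hI h8).1 h5
    have h10 := (Dec.min_iff hhcof H hκ hC h8 h9 hab' α).1 h6
    have h11 := (Dec.min_iff hhcof H hκ hC h8 h9 le_rfl β).1 h6'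
    have e1 := h10.unique ha
    have e2 := h11.unique hb
    subst e1
    subst e2
    rcases h7 with h7 | ⟨h7, h12⟩
    · left
      exact (Dec.col_iff hhcof H hκ hC h8 h9 hab y).1 h7
    · right
      exact ⟨Ordinal.toZFSet_injective h7, h12⟩
  · intro h0
    obtain ⟨hf, h1, h2⟩ := exists_large_succ J b hb'
    obtain ⟨h, H⟩ := exists_dec_of hE h1
    obtain ⟨R, hR⟩ : ∃ R, R = relO (lam := lam) (b + 1) (fun a γ =>
      RK J (D.dom (dC a)) (D.ev (fun i => hf i + 1) (dC a)) γ) := ⟨_, rfl⟩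
    have h7 : RGood J D dC (fun i => hf i + 1) R b := by
      intro γ hγ a
      rw [hR, pair_mem_relO (Order.lt_add_one_iff.2 hγ)]
    refine ⟨{(b + 1).toZFSet, h, R}, (b + 1).toZFSet, by simp, h, by simp, R, by simp,
      a.toZFSet, ?_, b.toZFSet, ?_, ⟨?_, ?_⟩, H.good, Dec.corr_of hhcof H hκ hC hS hI h7,
      (Dec.big_iff hhcof H hκ hC hS hI h7).2 h2,
      (Dec.min_iff hhcof H hκ hC h7 h2 hab α).2 ha,
      (Dec.min_iff hhcof H hκ hC h7 h2 le_rfl β).2 hb, ?_⟩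
    · exact Ordinal.toZFSet_mem_toZFSet_iff.2 (hab.trans_lt hb')
    · exact Ordinal.toZFSet_mem_toZFSet_iff.2 hb'
    · exact Ordinal.toZFSet_mem_toZFSet_iff.2 (lt_add_one b)
    · exact leS_ord.2 (le_of_lt (lt_add_one b))
    · rcases h0 with h0 | ⟨h0, h0'⟩
      · left
        exact (Dec.col_iff hhcof H hκ hC h7 h2 hab y).2 h0
      · right
        exact ⟨by rw [h0], h0'⟩

end Correct

end Pool.Agent.Helper92.SC
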