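import Pool.Agent.Helper92.SC.Core

/-!
Hereditarily exact ranks are unbounded below the successor of `lam`.
-/

open Set Ordinal Cardinal

universe u

namespace Pool.Agent.Helper92.SC

open Pool.Agent.Helper98

variable {ι : Type u} [LinearOrder ι] {J : NIdeal ι} {D : CatchData ι} {lam : Cardinal.{u}}

theorem RK_limit {T : Set ι} {f : ι → Ordinal.{u}} {γ : Ordinal.{u}}
    (h : ∀ δ, δ < γ → RK J T f (δ + 1)) : RK J T f γ := by
  rw [RK_iff]
  intro δ hδ
  exact RK_iff.1 (h δ hδ) δ (lt_add_one δ)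

theorem succ_ord_limit (hlam : ℵ₀ ≤ lam) : Order.IsSuccLimit (Order.succ lam).ord :=
  isSuccLimit_ord (isRegular_succ hlam).aleph0_le

theorem iSup_lt_succ {α : Type u} (hlam : ℵ₀ ≤ lam) (hα : #α ≤ lam) {f : α → Ordinal.{u}}
    (hf : ∀ a, f a < (Order.succ lam).ord) : (⨆ a, f a) < (Order.succ lam).ord := by
  apply Ordinal.iSup_lt_of_lt_cof _ hf
  rw [(isRegular_succ hlam).cof_ord]
  exact hα.trans_lt (Order.lt_succ _)

variable [Infinite ι] [WellFoundedLT ι]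

set_option linter.unusedSectionVars false in
theorem RK_restrict {A : Set ι} {γ : Ordinal.{u}} : ∀ {g : ι → Ordinal.{u}},
    RK J A g γ → RK (J.restrict A) Set.univ g γ := by
  induction γ using WellFoundedLT.induction with
  | ind γ ih =>
    intro g H
    rw [RK_iff] at H ⊢
    intro δ hδ
    obtain ⟨g', h1, h2⟩ := H δ hδ
    refine ⟨g', ?_, ih δ hδ h2⟩
    change {i ∈ Set.univ | ¬ g' i < g i} ∩ A ∈ J.sets
    refine J.mono ?_ h1
    rintro i ⟨⟨_, h3⟩, h4⟩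
    exact ⟨h4, h3⟩

theorem not_RK_univ (hω : ∀ s : ℕ → ι, BddAbove (range s)) (hlam : ℵ₀ ≤ lam)
    (hC : #D.Code ≤ lam) (hJ : Set.univ ∉ J.sets) {g : ι → Ordinal.{u}}
    (hg : ∀ i, g i < D.κ i) : ¬ RK J Set.univ g (Order.succ lam).ord := by
  classical
  intro hR
  obtain ⟨f, hf0, hf1, hf2⟩ := exists_exact_rank hω hJ hg hR
  have hI : ∀ A : Set ι, A ∈ (rankIdeal J f ((Order.succ lam).ord + 1)).sets ↔
      RK J A f ((Order.succ lam).ord + 1) := fun A => Iff.rfl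
  have hJI : J.sets ⊆ (rankIdeal J f ((Order.succ lam).ord + 1)).sets :=
    fun A hA => RK_of_mem hA _ _
  have h1 : ∀ φ : D.Code, ∃ δ, δ < (Order.succ lam).ord ∧
      (RK J (D.dom φ) (D.ev f φ) δ → RK J (D.dom φ) (D.ev f φ) (Order.succ lam).ord) := by
    intro φ
    by_cases h2 : RK J (D.dom φ) (D.ev f φ) (Order.succ lam).ord
    · exact ⟨0, (isRegular_succ hlam).ord_pos, fun _ => h2⟩
    · by_contra hcon
      push Not at hcon
      apply h2
      apply RK_limit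
      intro δ hδ
      exact (hcon (δ + 1) ((succ_ord_limit hlam).add_one_lt hδ)).1
  choose δ hδ1 hδ2 using h1
  have hρ : (⨆ φ, δ φ) < (Order.succ lam).ord := iSup_lt_succ hlam hC hδ1
  obtain ⟨g', hg1, hg2⟩ := RK_iff.1 hf1 _ hρ
  have hT : {i | g' i < f i} ∉ (rankIdeal J f ((Order.succ lam).ord + 1)).sets := by
    intro hmem
    apply hf2
    rw [← hI]
    refine (rankIdeal J f ((Order.succ lam).ord + 1)).mono ?_
      ((rankIdeal J f ((Order.succ lam).ord + 1)).union hmem (hJI hg1))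
    intro i hi
    by_cases h1 : g' i < f i
    · left; exact h1
    · right; exact ⟨hi, h1⟩
  obtain ⟨φ, hφ1, hφ2, hφ3⟩ := D.exists_code hf0 _ hT (g := g') (fun i hi => hi)
  apply hφ2
  rw [hI]
  have h2 : RK J (D.dom φ) (D.ev f φ) (⨆ φ, δ φ) :=
    (hg2.mono_set (subset_univ _)).congr' (fun i hi => (hφ3 i hi).symm)
  have h3 := hδ2 φ (h2.mono_rank (Ordinal.le_iSup δ φ))
  refine h3.succ (J.mono ?_ J.empty_mem)
  rintro i ⟨h4, h5⟩
  apply h5
  rw [hφ3 i h4]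
  exact hφ1 h4

/-- Every function below `κ` has rank below the successor of `lam` on every positive set. -/
theorem not_RK_pos (hω : ∀ s : ℕ → ι, BddAbove (range s)) (hlam : ℵ₀ ≤ lam)
    (hC : #D.Code ≤ lam) {A : Set ι} (hA : A ∉ J.sets) {g : ι → Ordinal.{u}}
    (hg : ∀ i, g i < D.κ i) : ¬ RK J A g (Order.succ lam).ord := by
  intro hR
  refine not_RK_univ (D := D) hω hlam hC (J := J.restrict A) ?_ hg (RK_restrict hR)
  intro h1
  apply hA
  have h2 : Set.univ ∩ A ∈ J.sets := h1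
  rwa [univ_inter] at h2

theorem exists_bound (hω : ∀ s : ℕ → ι, BddAbove (range s)) (hlam : ℵ₀ ≤ lam)
    (hC : #D.Code ≤ lam) (hS : #(Set ι) ≤ lam) {g : ι → Ordinal.{u}} (hg : ∀ i, g i < D.κ i) :
    ∃ ρ, ρ < (Order.succ lam).ord ∧ ∀ A ∉ J.sets, ¬ RK J A g ρ := by
  have h1 : ∀ A : Set ι, ∃ ρ, ρ < (Order.succ lam).ord ∧ (A ∉ J.sets → ¬ RK J A g ρ) := by
    intro A
    by_cases hA : A ∈ J.sets
    · exact ⟨0, (isRegular_succ hlam).ord_pos, fun h => (h hA).elim⟩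
    · by_contra hcon
      push Not at hcon
      apply not_RK_pos (D := D) hω hlam hC hA hg
      apply RK_limit
      intro δ hδ
      exact (hcon (δ + 1) ((succ_ord_limit hlam).add_one_lt hδ)).2
  choose ρ hρ1 hρ2 using h1
  refine ⟨⨆ A, ρ A, iSup_lt_succ hlam hS hρ1, ?_⟩
  intro A hA hR
  exact hρ2 A hA (hR.mono_rank (Ordinal.le_iSup ρ A))

section Build

variable {Θ : Type u} [LinearOrder Θ] [WellFoundedLT Θ]

open Classical in
/-- a pointwise increasing sequence of functions -/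
noncomputable def build (F : (ι → Ordinal.{u}) → ι → Ordinal.{u}) (g0 : ι → Ordinal.{u}) (i0 : ι) :
    Θ → ι → Ordinal.{u} :=
  (wellFounded_lt (α := Θ)).fix (fun ε rec i =>
    if i0 < i then max (g0 i) (⨆ δ : Iio ε, (F (rec δ.1 δ.2) i + 1)) else 0)

omit [Infinite ι] [WellFoundedLT ι] in
open Classical in
theorem build_def (F : (ι → Ordinal.{u}) → ι → Ordinal.{u}) (g0 : ι → Ordinal.{u}) (i0 : ι)
    (ε : Θ) : build F g0 i0 ε = fun i =>
      if i0 < i then max (g0 i) (⨆ δ : Iio ε, (F (build F g0 i0 δ.1) i + 1)) else 0 := by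
  rw [build, WellFounded.fix_eq]

omit [Infinite ι] [WellFoundedLT ι] in
theorem build_eq (F : (ι → Ordinal.{u}) → ι → Ordinal.{u}) (g0 : ι → Ordinal.{u}) {i0 i : ι}
    (hi : i0 < i) (ε : Θ) : build F g0 i0 ε i =
      max (g0 i) (⨆ δ : Iio ε, (F (build F g0 i0 δ.1) i + 1)) := by
  rw [build_def]
  exact if_pos hi

omit [Infinite ι] [WellFoundedLT ι] in
theorem build_zero (F : (ι → Ordinal.{u}) → ι → Ordinal.{u}) (g0 : ι → Ordinal.{u}) {i0 i : ι}
    (hi : ¬ i0 < i) (ε : Θ) : build F g0 i0 ε i = 0 := by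
  rw [build_def]
  exact if_neg hi

omit [Infinite ι] [WellFoundedLT ι] in
theorem lt_build (F : (ι → Ordinal.{u}) → ι → Ordinal.{u}) (g0 : ι → Ordinal.{u}) {i0 i : ι}
    (hi : i0 < i) {δ ε : Θ} (h : δ < ε) : F (build F g0 i0 δ) i < build F g0 i0 ε i := by
  rw [build_eq F g0 hi ε]
  refine lt_max_of_lt_right ?_
  refine (lt_add_one _).trans_le ?_
  exact Ordinal.le_iSup (fun δ : Iio ε => F (build F g0 i0 δ.1) i + 1) ⟨δ, h⟩

omit [Infinite ι] [WellFoundedLT ι] in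
theorem build_lt {κ : ι → Ordinal.{u}} {F : (ι → Ordinal.{u}) → ι → Ordinal.{u}}
    {g0 : ι → Ordinal.{u}} {i0 : ι} (hg0 : ∀ i, g0 i < κ i)
    (hF : ∀ g : ι → Ordinal.{u}, (∀ i, g i < κ i) → ∀ i, F g i < κ i)
    (hκ : ∀ i, i0 < i → #Θ < (κ i).cof) (ε : Θ) : ∀ i, build F g0 i0 ε i < κ i := by
  induction ε using WellFoundedLT.induction with
  | ind ε ih =>
    intro i
    by_cases hi : i0 < i
    · rw [build_eq F g0 hi ε]
      refine max_lt (hg0 i) ?_
      apply Ordinal.iSup_add_one_lt_of_lt_cof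
      · exact (mk_subtype_le _).trans_lt (hκ i hi)
      · intro δ
        exact hF _ (ih δ.1 δ.2) i
    · rw [build_zero F g0 hi ε]
      exact lt_of_le_of_lt zero_le (hg0 i)

end Build

/-- Hereditarily exact ranks are unbounded. -/
theorem exists_HE (hω : ∀ s : ℕ → ι, BddAbove (range s)) (hlam : ℵ₀ ≤ lam)
    (hC : #D.Code ≤ lam) (hS : #(Set ι) ≤ lam) (hJ : Set.univ ∉ J.sets)
    (hsucc : Order.succ #ι ≤ lam) (i0 : ι)
    (hκ : ∀ i, i0 < i → Order.succ #ι < (D.κ i).cof)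
    (large : ∀ α, α < (Order.succ lam).ord → ∃ k : ι → Ordinal.{u}, (∀ i, k i < D.κ i) ∧
      RK J Set.univ k α)
    {α : Ordinal.{u}} (hα : α < (Order.succ lam).ord) :
    ∃ ζ, α ≤ ζ ∧ ζ < (Order.succ lam).ord ∧ ∃ (T : Set ι) (f : ι → Ordinal.{u}),
      HE D J ζ T f := by
  classical
  -- the index type of the sequence
  obtain ⟨Θ, hΘ⟩ : ∃ Θ : Type u, Θ = (Order.succ #ι).ord.ToType := ⟨_, rfl⟩
  have hΘ1 : #((Order.succ #ι).ord.ToType) = Order.succ #ι := mk_ord_toType _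
  have hinf : ℵ₀ ≤ #ι := aleph0_le_mk ι
  have hΘcof : Order.cof ((Order.succ #ι).ord.ToType) = Order.succ #ι := by
    rw [Ordinal.cof_toType, (isRegular_succ hinf).cof_ord]
  -- choose the bounds
  have hb : ∀ g : ι → Ordinal.{u}, ∃ ρ, ρ < (Order.succ lam).ord ∧
      ((∀ i, g i < D.κ i) → ∀ A ∉ J.sets, ¬ RK J A g ρ) := by
    intro g
    by_cases hg : ∀ i, g i < D.κ i
    · obtain ⟨ρ, h1, h2⟩ := exists_bound (J := J) hω hlam hC hS hg
      exact ⟨ρ, h1, fun _ => h2⟩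
    · exact ⟨0, (isRegular_succ hlam).ord_pos, fun h => (hg h).elim⟩
  choose ρ hρ1 hρ2 using hb
  have hK : ∀ g : ι → Ordinal.{u}, ∃ k : ι → Ordinal.{u}, (∀ i, k i < D.κ i) ∧
      RK J Set.univ k (ρ g) := fun g => large (ρ g) (hρ1 g)
  choose K hK1 hK2 using hK
  obtain ⟨g0, hg0, hg0R⟩ := large α hα
  obtain ⟨F, hF⟩ : ∃ F : (ι → Ordinal.{u}) → ι → Ordinal.{u}, F = fun g i => max (g i) (K g i) :=
    ⟨_, rfl⟩
  have hF1 : ∀ g i, g i ≤ F g i := fun g i => by rw [hF]; exact le_max_left _ _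
  have hF2 : ∀ g i, K g i ≤ F g i := fun g i => by rw [hF]; exact le_max_right _ _
  have hFlt : ∀ g : ι → Ordinal.{u}, (∀ i, g i < D.κ i) → ∀ i, F g i < D.κ i := by
    intro g hg i
    rw [hF]
    exact max_lt (hg i) (hK1 g i)
  obtain ⟨G, hG⟩ : ∃ G : (Order.succ #ι).ord.ToType → ι → Ordinal.{u},
    G = fun ε => build F g0 i0 ε := ⟨_, rfl⟩
  have hGlt : ∀ ε i, G ε i < D.κ i := by
    intro ε
    rw [hG]
    refine build_lt hg0 hFlt ?_ ε
    intro i hi
    rw [hΘ1]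
    exact hκ i hi
  have hGmono : ∀ i, i0 < i → ∀ δ ε, δ < ε → F (G δ) i < G ε i := by
    intro i hi δ ε h
    rw [hG]
    exact lt_build F g0 hi h
  have hGle : ∀ i, i0 < i → ∀ δ ε, δ ≤ ε → G δ i ≤ G ε i := by
    intro i hi δ ε h
    rcases h.eq_or_lt with h1 | h1
    · rw [h1]
    · exact (hF1 _ _).trans (hGmono i hi δ ε h1).le
  have hG0 : ∀ i, i0 < i → ∀ ε, g0 i ≤ G ε i := by
    intro i hi ε
    rw [hG]
    change g0 i ≤ build F g0 i0 ε i
    rw [build_eq F g0 hi ε]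
    exact le_max_left _ _
  have hnext : ∀ ε : (Order.succ #ι).ord.ToType, ∃ ε', ε < ε' := by
    intro ε
    by_contra hcon
    push Not at hcon
    have h1 : IsCofinal ({ε} : Set ((Order.succ #ι).ord.ToType)) := fun b => ⟨ε, rfl, hcon b⟩
    have h2 := Order.cof_le h1
    rw [hΘcof, mk_singleton] at h2
    exact absurd (one_lt_aleph0.trans_le (hinf.trans (Order.le_succ _))) (not_lt.2 h2)
  have hne : Nonempty ((Order.succ #ι).ord.ToType) := by
    rw [nonempty_toType_iff]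
    exact (isRegular_succ hinf).ord_pos.ne'
  -- the limit function
  obtain ⟨g, hg⟩ : ∃ g : ι → Ordinal.{u}, g = fun i => if i0 < i then ⨆ ε, G ε i else 0 :=
    ⟨_, rfl⟩
  have hgi : ∀ i, i0 < i → g i = ⨆ ε, G ε i := by
    intro i hi
    rw [hg]
    exact if_pos hi
  have hglt : ∀ i, g i < D.κ i := by
    intro i
    by_cases hi : i0 < i
    · rw [hgi i hi]
      apply Ordinal.iSup_lt_of_lt_cof _ (fun ε => hGlt ε i)
      rw [hΘ1]
      exact hκ i hi
    · rw [hg]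
      change (if i0 < i then ⨆ ε, G ε i else 0) < D.κ i
      rw [if_neg hi]
      exact lt_of_le_of_lt zero_le (hg0 i)
  have hGg : ∀ i, i0 < i → ∀ ε, G ε i ≤ g i := by
    intro i hi ε
    rw [hgi i hi]
    exact Ordinal.le_iSup (fun ε => G ε i) ε
  have hζ : (⨆ ε, ρ (G ε)) < (Order.succ lam).ord := by
    apply iSup_lt_succ hlam _ (fun ε => hρ1 _)
    rw [hΘ1]
    exact hsucc
  have hbdd : ∀ P : ι → Prop, (∀ i, i0 < i → P i) → {i | ¬ P i} ∈ J.sets := by
    intro P hP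
    refine J.mono ?_ (J.bdd i0)
    intro i hi
    by_contra h1
    exact hi (hP i (not_le.1 h1))
  refine ⟨⨆ ε, ρ (G ε), ?_, hζ, Set.univ, g, hJ, hglt, ?_, ?_⟩
  · -- `α ≤ ζ`
    obtain ⟨ε⟩ := hne
    refine le_trans ?_ (Ordinal.le_iSup (fun ε => ρ (G ε)) ε)
    by_contra hcon
    refine hρ2 (G ε) (hGlt ε) Set.univ hJ ?_
    refine RK.of_le ?_ (hg0R.mono_rank (not_le.1 hcon).le)
    refine J.mono ?_ (hbdd (fun i => g0 i ≤ G ε i) (fun i hi => hG0 i hi ε))
    rintro i ⟨_, h1⟩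
    exact h1
  · -- rank at least `ζ`
    rw [RK_iff]
    intro δ hδ
    obtain ⟨ε, hε⟩ := Ordinal.lt_iSup_iff.1 hδ
    obtain ⟨ε', hε'⟩ := hnext ε
    refine ⟨K (G ε), ?_, (hK2 (G ε)).mono_rank hε.le⟩
    refine J.mono ?_ (hbdd (fun i => K (G ε) i < g i) ?_)
    · rintro i ⟨_, h1⟩
      exact h1
    · intro i hi
      exact ((hF2 _ _).trans_lt (hGmono i hi ε ε' hε')).trans_le (hGg i hi ε')
  · -- exactness
    intro A _ hA hR
    obtain ⟨f, hf1, hf2⟩ := RK_iff.1 hR _ (lt_add_one _)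
    have hA' : {i ∈ A | f i < g i ∧ i0 < i} ∉ J.sets := by
      intro hmem
      apply hA
      refine J.mono ?_ (J.union hmem (J.union hf1 (J.bdd i0)))
      intro i hi
      by_cases h1 : f i < g i
      · by_cases h2 : i0 < i
        · left; exact ⟨hi, h1, h2⟩
        · right; right; exact not_lt.1 h2
      · right; left; exact ⟨hi, h1⟩
    have h1 : ∀ i, ∃ ε, i ∈ {i ∈ A | f i < g i ∧ i0 < i} → f i < G ε i := by
      intro i
      by_cases hi : i ∈ {i ∈ A | f i < g i ∧ i0 < i}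
      · have h2 := hi.2.1
        rw [hgi i hi.2.2] at h2
        obtain ⟨ε, hε⟩ := Ordinal.lt_iSup_iff.1 h2
        exact ⟨ε, fun _ => hε⟩
      · exact ⟨hne.some, fun h => (hi h).elim⟩
    choose E hE using h1
    have h2 : BddAbove (range E) := by
      refine .of_not_isCofinal fun hg => (Order.cof_le hg).not_gt ?_
      rw [hΘcof]
      exact mk_range_le.trans_lt (Order.lt_succ _)
    obtain ⟨ε, hε⟩ := h2
    have h3 : RK J {i ∈ A | f i < g i ∧ i0 < i} (G ε) (⨆ ε, ρ (G ε)) := by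
      refine RK.of_le (J.mono ?_ J.empty_mem) (hf2.mono_set (fun i hi => hi.1))
      rintro i ⟨h4, h5⟩
      exact h5 ((hE i h4).le.trans (hGle i h4.2.2 _ _ (hε ⟨i, rfl⟩)))
    exact hρ2 (G ε) (hGlt ε) _ hA' (h3.mono_rank (Ordinal.le_iSup (fun ε => ρ (G ε)) ε))

end Pool.Agent.Helper92.SC
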